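import Mathlib
import Pool.Agent.Helper64.Rho.Weak

/-!
# Subset sums in abelian groups of exponent three: basic facts (MP_ec93d3_co)

`mu M A` is the number of elements of the union of the cosets of the subgroup `M` that contain a
subset sum of `A`.
-/

set_option autoImplicit false

namespace Pool.Agent.EXT

open Finset Pool.Agent.Helper64.Rho

variable {G : Type*} [AddCommGroup G] [Fintype G] [DecidableEq G]

/-- the number of elements of the cosets of `M` that meet the set of the subset sums of `A` -/
noncomputable def mu (M : AddSubgroup G) (A : Finset G) : ℕ := (sat M (FS A id)).card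

/-- the elements of `A` are, up to sign, pairwise different modulo `M`, and not in `M` -/
def Dist (M : AddSubgroup G) (A : Finset G) : Prop :=
  (∀ a ∈ A, a ∉ M) ∧ ∀ a ∈ A, ∀ b ∈ A, a ≠ b → a - b ∉ M ∧ a + b ∉ M

omit [Fintype G] [DecidableEq G] in
lemma Dist.mono {M : AddSubgroup G} {A B : Finset G} (h : Dist M A) (hB : B ⊆ A) : Dist M B :=
  ⟨fun a ha => h.1 a (hB ha), fun a ha b hb hab => h.2 a (hB ha) b (hB hb) hab⟩

/-- elements of `M` do not matter -/
lemma sat_FS_union {M : AddSubgroup G} {A B : Finset G} (hd : Disjoint A B)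
    (hB : ∀ b ∈ B, b ∈ M) : sat M (FS (A ∪ B) id) = sat M (FS A id) := by
  ext x
  rw [mem_sat, mem_sat]
  constructor
  · rintro ⟨y, hy, hxy⟩
    obtain ⟨a, ha, b, hb, rfl⟩ := (mem_FS_union hd id).mp hy
    refine ⟨a, ha, ?_⟩
    have h1 : b ∈ M := FS_subset_of_mem (f := id) hB hb
    have h2 : x - a = (x - (a + b)) + b := by abel
    rw [h2]
    exact M.add_mem hxy h1
  · rintro ⟨y, hy, hxy⟩
    exact ⟨y, FS_mono subset_union_left id hy, hxy⟩

open Classical in
lemma mu_filter (M : AddSubgroup G) (A : Finset G) : mu M (A.filter (· ∉ M)) = mu M A := by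
  unfold mu
  have h1 : A.filter (· ∉ M) ∪ A.filter (· ∈ M) = A := by
    rw [union_comm]
    exact filter_union_filter_not_eq _ _
  have h2 : Disjoint (A.filter (· ∉ M)) (A.filter (· ∈ M)) := by
    rw [disjoint_left]
    intro x hx hx2
    exact (mem_filter.mp hx).2 (mem_filter.mp hx2).2
  have h3 := sat_FS_union (M := M) h2 (fun b hb => (mem_filter.mp hb).2)
  rw [h1] at h3
  rw [h3]

lemma mu_erase {M : AddSubgroup G} {A : Finset G} {b : G} (hb : b ∈ A) (hbM : b ∈ M) :
    sat M (FS (A.erase b) id) = sat M (FS A id) := by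
  have h1 : A.erase b ∪ {b} = A := by
    rw [union_comm, ← insert_eq, insert_erase hb]
  have h2 : Disjoint (A.erase b) {b} := by
    rw [disjoint_singleton_right]
    exact notMem_erase b A
  have h3 := sat_FS_union (M := M) h2 (fun c hc => by rw [mem_singleton.mp hc]; exact hbM)
  rw [h1] at h3
  rw [h3]

/-! ### exponent three -/

section Three

variable (h3 : ∀ x : G, x + x + x = 0)

include h3

omit [Fintype G] [DecidableEq G] in
lemma mem_sup3 (M : AddSubgroup G) (b x : G) :
    x ∈ M ⊔ AddSubgroup.zmultiples b ↔ x ∈ M ∨ x - b ∈ M ∨ x + b ∈ M := by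
  constructor
  · intro hx
    obtain ⟨y, hy, z, hz, rfl⟩ := AddSubgroup.mem_sup.mp hx
    obtain ⟨n, rfl⟩ := AddSubgroup.mem_zmultiples_iff.mp hz
    have hn : n • b = (n % 3) • b := by
      have e1 : n = 3 * (n / 3) + n % 3 := (Int.mul_ediv_add_emod n 3).symm
      have e2 : n • b = (3 * (n / 3) + n % 3) • b := by rw [← e1]
      rw [e2, add_zsmul, mul_comm, mul_zsmul]
      have e3 : (3 : ℤ) • b = 0 := by
        have e4 : (3 : ℤ) • b = b + b + b := by
          rw [show (3 : ℤ) = 1 + 1 + 1 by norm_num, add_zsmul, add_zsmul, one_zsmul]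
        rw [e4, h3]
      rw [e3, zsmul_zero, zero_add]
    rw [hn]
    have h0 := Int.emod_nonneg n (show (3 : ℤ) ≠ 0 by norm_num)
    have h1 := Int.emod_lt_of_pos n (show (0 : ℤ) < 3 by norm_num)
    have h2 : n % 3 = 0 ∨ n % 3 = 1 ∨ n % 3 = 2 := by omega
    rcases h2 with h | h | h
    · left
      rw [h, zero_zsmul, add_zero]
      exact hy
    · right; left
      rw [h, one_zsmul, add_sub_cancel_right]
      exact hy
    · right; right
      rw [h]
      have e : y + (2 : ℤ) • b + b = y := by
        have e5 : (2 : ℤ) • b = b + b := by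
          rw [show (2 : ℤ) = 1 + 1 by norm_num, add_zsmul, one_zsmul]
        rw [e5, add_assoc, h3, add_zero]
      rw [e]
      exact hy
  · have hb : b ∈ M ⊔ AddSubgroup.zmultiples b :=
      (le_sup_right : AddSubgroup.zmultiples b ≤ M ⊔ AddSubgroup.zmultiples b)
        (AddSubgroup.mem_zmultiples b)
    have hM : M ≤ M ⊔ AddSubgroup.zmultiples b := le_sup_left
    rintro (h | h | h)
    · exact hM h
    · have e : x = (x - b) + b := by abel
      rw [e]
      exact AddSubgroup.add_mem _ (hM h) hb
    · have e : x = (x + b) - b := by abel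
      rw [e]
      exact AddSubgroup.sub_mem _ (hM h) hb

omit [Fintype G] [DecidableEq G] in
lemma two_notMem {M : AddSubgroup G} {b : G} (hb : b ∉ M) : b + b ∉ M := by
  intro h
  apply hb
  have e : b = -(b + b) := by
    rw [eq_neg_iff_add_eq_zero, ← add_assoc]
    exact h3 b
  rw [e]
  exact M.neg_mem h

lemma card_sup3 {M : AddSubgroup G} {b : G} (hb : b ∉ M) :
    Nat.card (M ⊔ AddSubgroup.zmultiples b : AddSubgroup G) = 3 * Nat.card M := by
  rw [← card_elts, ← card_elts]
  have h1 : elts (M ⊔ AddSubgroup.zmultiples b) =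
      elts M ∪ ((elts M).image (· + b) ∪ (elts M).image (· - b)) := by
    ext x
    rw [mem_elts, mem_sup3 h3, mem_union, mem_union, mem_elts, mem_image, mem_image]
    constructor
    · rintro (h | h | h)
      · exact Or.inl h
      · exact Or.inr (Or.inl ⟨x - b, mem_elts.mpr h, by abel⟩)
      · exact Or.inr (Or.inr ⟨x + b, mem_elts.mpr h, by abel⟩)
    · rintro (h | ⟨y, hy, rfl⟩ | ⟨y, hy, rfl⟩)
      · exact Or.inl h
      · right; left
        rw [add_sub_cancel_right]
        exact mem_elts.mp hy
      · right; right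
        rw [sub_add_cancel]
        exact mem_elts.mp hy
  have h2 : Disjoint ((elts M).image (· + b)) ((elts M).image (· - b)) := by
    rw [disjoint_left]
    rintro x hx hx2
    obtain ⟨y, hy, rfl⟩ := mem_image.mp hx
    obtain ⟨z, hz, hyz⟩ := mem_image.mp hx2
    apply two_notMem h3 hb
    have e : b + b = z - y := by
      have hyz' : z - b = y + b := hyz
      have e1 : z = y + b + b := by rw [← hyz']; abel
      rw [e1]; abel
    rw [e]
    exact M.sub_mem (mem_elts.mp hz) (mem_elts.mp hy)
  have h4 : Disjoint (elts M) ((elts M).image (· + b) ∪ (elts M).image (· - b)) := by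
    rw [disjoint_left]
    intro x hx hx2
    rcases mem_union.mp hx2 with hx2 | hx2
    · obtain ⟨y, hy, rfl⟩ := mem_image.mp hx2
      apply hb
      have e : b = (y + b) - y := by abel
      rw [e]
      exact M.sub_mem (mem_elts.mp hx) (mem_elts.mp hy)
    · obtain ⟨y, hy, rfl⟩ := mem_image.mp hx2
      apply hb
      have e : b = y - (y - b) := by abel
      rw [e]
      exact M.sub_mem (mem_elts.mp hy) (mem_elts.mp hx)
  rw [h1, card_union_of_disjoint h4, card_union_of_disjoint h2,
    card_image_of_injective _ (add_left_injective b),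
    card_image_of_injective _ (sub_left_injective (b := b))]
  ring

/-- (F) passing to the quotient by an element of `A` -/
lemma two_mul_mu_le {M : AddSubgroup G} {A : Finset G} {b : G} (hb : b ∈ A) (hbM : b ∉ M) :
    2 * mu (M ⊔ AddSubgroup.zmultiples b) (A.erase b) ≤ 3 * mu M A := by
  have hd : Disjoint (A.erase b) {b} := by
    rw [disjoint_singleton_right]
    exact notMem_erase b A
  have hbL : b ∈ M ⊔ AddSubgroup.zmultiples b :=
    (le_sup_right : AddSubgroup.zmultiples b ≤ M ⊔ AddSubgroup.zmultiples b)
      (AddSubgroup.mem_zmultiples b)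
  have h1 := card_prod_le M (M ⊔ AddSubgroup.zmultiples b) id {b} (A.erase b) hd
    (fun i hi => by rw [mem_singleton.mp hi]; exact hbL) le_sup_left
  have h2 : A.erase b ∪ {b} = A := by
    rw [union_comm, ← insert_eq, insert_erase hb]
  rw [h2, card_sup3 h3 hbM] at h1
  have h4 : 2 * Nat.card M ≤ (sat M (FS {b} id)).card :=
    two_card_le_sat (i := b) (mem_singleton_self b) hbM
  have h5 : 0 < Nat.card M := Nat.card_pos
  unfold mu
  refine Nat.le_of_mul_le_mul_right (c := Nat.card M) ?_ h5
  calc 2 * (sat (M ⊔ AddSubgroup.zmultiples b) (FS (A.erase b) id)).card * Nat.card M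
      = (sat (M ⊔ AddSubgroup.zmultiples b) (FS (A.erase b) id)).card * (2 * Nat.card M) := by ring
    _ ≤ (sat (M ⊔ AddSubgroup.zmultiples b) (FS (A.erase b) id)).card *
        (sat M (FS {b} id)).card := Nat.mul_le_mul_left _ h4
    _ ≤ (sat M (FS A id)).card * (3 * Nat.card M) := h1
    _ = 3 * (sat M (FS A id)).card * Nat.card M := by ring

omit [Fintype G] [DecidableEq G] in
lemma mem_stab_of_add {X : Finset G} {a : G} (h : ∀ x ∈ X, x + a ∈ X) : a ∈ stab X := by
  rw [mem_stab]
  intro x
  refine ⟨h x, fun hx => ?_⟩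
  have h1 := h _ (h _ hx)
  have e : x + a + a + a = x := by
    rw [add_assoc, add_assoc, ← add_assoc a a a, h3, add_zero]
  rw [e] at h1
  exact h1

/-- (C) two elements that agree up to sign modulo `M` give a period -/
lemma period {M : AddSubgroup G} {A : Finset G} {a b : G} (ha : a ∈ A) (hb : b ∈ A) (hab : a ≠ b)
    (h : a - b ∈ M ∨ a + b ∈ M) : a ∈ stab (sat M (FS A id)) := by
  apply mem_stab_of_add h3
  intro x hx
  obtain ⟨y, hy, hxy⟩ := mem_sat.mp hx
  obtain ⟨B, hB, rfl⟩ := mem_FS.mp hy
  simp only [id] at *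
  -- the sum without `a` and `b`
  have key : ∀ C ⊆ A, (x + a) - ∑ i ∈ C, i ∈ M → x + a ∈ sat M (FS A id) := by
    intro C hC hm
    exact mem_sat.mpr ⟨∑ i ∈ C, i, mem_FS.mpr ⟨C, hC, rfl⟩, hm⟩
  by_cases haB : a ∈ B
  · have ea : ∑ i ∈ B, i = a + ∑ i ∈ B.erase a, i :=
      (add_sum_erase B (fun i => i) haB).symm
    by_cases hbB : b ∈ B
    · have hbB' : b ∈ B.erase a := mem_erase.mpr ⟨hab.symm, hbB⟩
      have eb : ∑ i ∈ B.erase a, i = b + ∑ i ∈ (B.erase a).erase b, i :=
        (add_sum_erase _ (fun i => i) hbB').symm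
      rcases h with h | h
      · -- drop both
        refine key ((B.erase a).erase b) ((erase_subset _ _).trans ((erase_subset _ _).trans hB)) ?_
        have e : x + a - ∑ i ∈ (B.erase a).erase b, i =
            (x - ∑ i ∈ B, i) + ((a + a + a) - (a - b)) := by
          rw [ea, eb]; abel
        rw [e, h3, zero_sub]
        exact M.add_mem hxy (M.neg_mem h)
      · -- drop `b`
        have hc : a ∈ B.erase b := mem_erase.mpr ⟨hab, haB⟩
        refine key (B.erase b) ((erase_subset _ _).trans hB) ?_
        have eb' : ∑ i ∈ B, i = b + ∑ i ∈ B.erase b, i :=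
          (add_sum_erase B (fun i => i) hbB).symm
        have e : x + a - ∑ i ∈ B.erase b, i = (x - ∑ i ∈ B, i) + (a + b) := by
          rw [eb']; abel
        rw [e]
        exact M.add_mem hxy h
    · rcases h with h | h
      · -- add `b`
        refine key (insert b B) (insert_subset hb hB) ?_
        rw [sum_insert hbB]
        have e : x + a - (b + ∑ i ∈ B, i) = (x - ∑ i ∈ B, i) + (a - b) := by abel
        rw [e]
        exact M.add_mem hxy h
      · -- replace `a` by `b`
        have hbB' : b ∉ B.erase a := fun h => hbB (mem_of_mem_erase h)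
        refine key (insert b (B.erase a)) (insert_subset hb ((erase_subset _ _).trans hB)) ?_
        rw [sum_insert hbB']
        have e : x + a - (b + ∑ i ∈ B.erase a, i) =
            (x - ∑ i ∈ B, i) + ((a + a + a) - (a + b)) := by
          rw [ea]; abel
        rw [e, h3, zero_sub]
        exact M.add_mem hxy (M.neg_mem h)
  · refine key (insert a B) (insert_subset ha hB) ?_
    rw [sum_insert haB]
    have e : x + a - (a + ∑ i ∈ B, i) = x - ∑ i ∈ B, i := by abel
    rw [e]
    exact hxy

open Classical in
/-- modulo the stabiliser the elements are different -/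
lemma dist_stab (M : AddSubgroup G) (A : Finset G) :
    Dist (stab (sat M (FS A id))) (A.filter (· ∉ stab (sat M (FS A id)))) := by
  set H := stab (sat M (FS A id)) with hH
  have hMH : M ≤ H := le_stab_sat M _
  have hsat : sat H (FS A id) = sat M (FS A id) := sat_eq_of_le_stab hMH le_rfl
  refine ⟨fun a ha => (mem_filter.mp ha).2, ?_⟩
  intro a ha b hb hab
  obtain ⟨ha1, ha2⟩ := mem_filter.mp ha
  obtain ⟨hb1, hb2⟩ := mem_filter.mp hb
  have key : ¬ (a - b ∈ H ∨ a + b ∈ H) := by
    intro h
    apply ha2
    have h1 := period h3 (M := H) ha1 hb1 hab h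
    rw [hsat] at h1
    exact h1
  exact ⟨fun h => key (Or.inl h), fun h => key (Or.inr h)⟩

/-- orders of subgroups -/
lemma exists_pow_aux (H : AddSubgroup G) : ∀ (n : ℕ) (M : AddSubgroup G), M ≤ H →
    Nat.card H - Nat.card M ≤ n → ∃ q, Nat.card H = 3 ^ q * Nat.card M := by
  intro n
  induction n with
  | zero =>
    intro M hM hn
    refine ⟨0, ?_⟩
    have h1 : Nat.card M ≤ Nat.card H :=
      Nat.card_le_card_of_injective (AddSubgroup.inclusion hM) (AddSubgroup.inclusion_injective hM)
    omega
  | succ n ih =>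
    intro M hM hn
    rcases eq_or_ne M H with h | h
    · subst h
      exact ⟨0, by rw [pow_zero, one_mul]⟩
    · obtain ⟨x, hxH, hxM⟩ := SetLike.exists_of_lt (lt_of_le_of_ne hM h)
      have h1 : M ⊔ AddSubgroup.zmultiples x ≤ H :=
        sup_le hM (AddSubgroup.zmultiples_le_of_mem hxH)
      have h2 := card_sup3 h3 hxM
      have h4 : 0 < Nat.card M := Nat.card_pos
      have h5 : Nat.card (M ⊔ AddSubgroup.zmultiples x : AddSubgroup G) ≤ Nat.card H :=
        Nat.card_le_card_of_injective (AddSubgroup.inclusion h1)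
          (AddSubgroup.inclusion_injective h1)
      obtain ⟨q, hq⟩ := ih _ h1 (by omega)
      refine ⟨q + 1, ?_⟩
      rw [hq, h2, pow_succ]
      ring

lemma exists_pow {M H : AddSubgroup G} (hM : M ≤ H) : ∃ q, Nat.card H = 3 ^ q * Nat.card M :=
  exists_pow_aux h3 H _ M hM le_rfl

/-- (N) the number of elements that are different up to sign -/
lemma two_mul_card_lt {M L : AddSubgroup G} {A : Finset G} (hML : M ≤ L) (hA : Dist M A)
    (hAL : ∀ a ∈ A, a ∈ L) : (2 * A.card + 1) * Nat.card M ≤ Nat.card L := by
  have hneg : Disjoint A (A.image (fun a => -a)) := by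
    rw [disjoint_left]
    intro x hx hx2
    obtain ⟨y, hy, hyx⟩ := mem_image.mp hx2
    have hyx' : -y = x := hyx
    rcases eq_or_ne x y with h | h
    · subst h
      apply hA.1 x hx
      have e : x = -(x + x) := by
        rw [eq_neg_iff_add_eq_zero, ← add_assoc]
        exact h3 x
      have e2 : x + x = 0 := by
        have e3 : x = -x := hyx'.symm
        have e4 : x + x = x + -x := by rw [← e3]
        rw [e4, add_neg_cancel]
      rw [e, e2, neg_zero]
      exact M.zero_mem
    · apply (hA.2 x hx y hy h).2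
      rw [← hyx', neg_add_cancel]
      exact M.zero_mem
  have h0 : (0 : G) ∉ A ∪ A.image (fun a => -a) := by
    intro h
    rcases mem_union.mp h with h | h
    · exact hA.1 0 h M.zero_mem
    · obtain ⟨y, hy, hy0⟩ := mem_image.mp h
      have : y = 0 := by
        have hy0' : -y = 0 := hy0
        rw [← neg_eq_zero]
        exact hy0'
      rw [this] at hy
      exact hA.1 0 hy M.zero_mem
  set T : Finset G := insert 0 (A ∪ A.image (fun a => -a)) with hT
  have hTc : T.card = 2 * A.card + 1 := by
    rw [hT, card_insert_of_notMem h0, card_union_of_disjoint hneg,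
      card_image_of_injective _ neg_injective]
    ring
  have hTL : ∀ t ∈ T, t ∈ L := by
    intro t ht
    rcases mem_insert.mp ht with rfl | ht
    · exact L.zero_mem
    · rcases mem_union.mp ht with ht | ht
      · exact hAL t ht
      · obtain ⟨y, hy, rfl⟩ := mem_image.mp ht
        exact L.neg_mem (hAL y hy)
  have hTd : ∀ t ∈ T, ∀ u ∈ T, t - u ∈ M → t = u := by
    have key : ∀ t ∈ T, t = 0 ∨ t ∈ A ∨ -t ∈ A := by
      intro t ht
      rcases mem_insert.mp ht with rfl | ht
      · exact Or.inl rfl
      · rcases mem_union.mp ht with ht | ht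
        · exact Or.inr (Or.inl ht)
        · obtain ⟨y, hy, rfl⟩ := mem_image.mp ht
          exact Or.inr (Or.inr (by rw [neg_neg]; exact hy))
    intro t ht u hu htu
    by_contra hne
    rcases key t ht with h1 | h1 | h1
    · subst h1
      rcases key u hu with h2 | h2 | h2
      · exact hne h2.symm
      · apply hA.1 u h2
        rw [zero_sub] at htu
        have := M.neg_mem htu
        rwa [neg_neg] at this
      · apply hA.1 _ h2
        rwa [zero_sub] at htu
    · rcases key u hu with h2 | h2 | h2
      · subst h2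
        apply hA.1 t h1
        rwa [sub_zero] at htu
      · exact (hA.2 t h1 u h2 hne).1 htu
      · rcases eq_or_ne t (-u) with h4 | h4
        · apply two_notMem h3 (hA.1 t h1)
          have e : t + t = t - u := by
            have e1 : u = -t := by rw [h4, neg_neg]
            rw [e1, sub_neg_eq_add]
          rw [e]
          exact htu
        · apply (hA.2 t h1 (-u) h2 h4).2
          rwa [← sub_eq_add_neg]
    · rcases key u hu with h2 | h2 | h2
      · subst h2
        apply hA.1 (-t) h1
        have := M.neg_mem htu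
        rwa [sub_zero] at this
      · rcases eq_or_ne (-t) u with h4 | h4
        · apply two_notMem h3 (hA.1 u h2)
          have e : u + u = -(t - u) := by
            have e1 : t = -u := by rw [← h4, neg_neg]
            rw [e1]; abel
          rw [e]
          exact M.neg_mem htu
        · apply (hA.2 (-t) h1 u h2 h4).2
          have e : -t + u = -(t - u) := by abel
          rw [e]
          exact M.neg_mem htu
      · rcases eq_or_ne (-t) (-u) with h4 | h4
        · exact hne (neg_injective h4)
        · apply (hA.2 (-t) h1 (-u) h2 h4).1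
          have e : -t - -u = -(t - u) := by abel
          rw [e]
          exact M.neg_mem htu
  rw [← hTc, ← card_elts, ← card_elts, ← card_product]
  apply card_le_card_of_injOn (fun p => p.1 + p.2)
  · intro p hp
    have hp := mem_product.mp (mem_coe.mp hp)
    exact mem_coe.mpr (mem_elts.mpr (L.add_mem (hTL _ hp.1) (hML (mem_elts.mp hp.2))))
  · rintro ⟨r, x⟩ hp ⟨r', x'⟩ hp' h
    have hp := mem_product.mp (mem_coe.mp hp)
    have hp' := mem_product.mp (mem_coe.mp hp')
    simp only at hp hp' h
    have h1 : r - r' ∈ M := by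
      have e : r - r' = x' - x := by
        rw [sub_eq_sub_iff_add_eq_add, h, add_comm]
      rw [e]
      exact M.sub_mem (mem_elts.mp hp'.2) (mem_elts.mp hp.2)
    have h2 := hTd r hp.1 r' hp'.1 h1
    subst h2
    rw [add_left_cancel h]

/-- (Q) if all cosets of `M + ⟨b⟩` are met by the sums of the other elements, two elements which
are congruent modulo `M + ⟨b⟩` and not in the set are congruent modulo `M` -/
lemma compl_unique {M : AddSubgroup G} {A : Finset G} {b x y : G} (hb : b ∈ A)
    (hx : x ∈ sat (M ⊔ AddSubgroup.zmultiples b) (FS (A.erase b) id))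
    (hy : y ∈ sat (M ⊔ AddSubgroup.zmultiples b) (FS (A.erase b) id))
    (hx' : x ∉ sat M (FS A id)) (hy' : y ∉ sat M (FS A id))
    (hxy : x - y ∈ M ⊔ AddSubgroup.zmultiples b) : x - y ∈ M := by
  have key : ∀ x, x ∈ sat (M ⊔ AddSubgroup.zmultiples b) (FS (A.erase b) id) →
      x ∉ sat M (FS A id) → ∃ z ∈ FS (A.erase b) id, x - z + b ∈ M := by
    intro x hx hx'
    obtain ⟨z, hz, hxz⟩ := mem_sat.mp hx
    refine ⟨z, hz, ?_⟩
    rcases (mem_sup3 h3 M b _).mp hxz with h | h | h
    · exfalso
      apply hx'
      exact mem_sat.mpr ⟨z, FS_mono (erase_subset _ _) id hz, h⟩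
    · exfalso
      apply hx'
      have h1 : z + b ∈ FS A id := by
        have h2 := FS_insert (f := id) (notMem_erase b A)
        rw [insert_erase hb] at h2
        rw [h2]
        exact mem_union_right _ (mem_image.mpr ⟨z, hz, rfl⟩)
      refine mem_sat.mpr ⟨z + b, h1, ?_⟩
      have e : x - (z + b) = x - z - b := by abel
      rw [e]
      exact h
    · exact h
  obtain ⟨z, hz, h1⟩ := key x hx hx'
  obtain ⟨w, hw, h2⟩ := key y hy hy'
  -- `z` and `w` are congruent modulo `M + ⟨b⟩`
  have h4 : z - w ∈ M ⊔ AddSubgroup.zmultiples b := by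
    have e : z - w = (x - y) - ((x - z + b) - (y - w + b)) := by abel
    rw [e]
    have hM : M ≤ M ⊔ AddSubgroup.zmultiples b := le_sup_left
    exact AddSubgroup.sub_mem _ hxy (hM (M.sub_mem h1 h2))
  have h5 : (x - y) - (z - w) ∈ M := by
    have e : (x - y) - (z - w) = (x - z + b) - (y - w + b) := by abel
    rw [e]
    exact M.sub_mem h1 h2
  -- if `z - w` is in `M + b` or `M - b`, use it for one of the two
  rcases (mem_sup3 h3 M b _).mp h4 with h | h | h
  · have e : x - y = ((x - y) - (z - w)) + (z - w) := by abel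
    rw [e]
    exact M.add_mem h5 h
  · -- `z = w + b` modulo `M`: then `y - z + b = y - w`, ...
    exfalso
    apply hx'
    -- `x - w = (x - z + b) + (z - w - b)`
    refine mem_sat.mpr ⟨w, FS_mono (erase_subset _ _) id hw, ?_⟩
    have e : x - w = (x - z + b) + (z - w - b) := by abel
    rw [e]
    exact M.add_mem h1 h
  · exfalso
    apply hy'
    refine mem_sat.mpr ⟨z, FS_mono (erase_subset _ _) id hz, ?_⟩
    have e : y - z = (y - w + b) - (z - w + b) := by abel
    rw [e]
    exact M.sub_mem h2 h

end Three

end Pool.Agent.EXT
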