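import Pool.Agent.EXT.Full

/-!
# Subset sums in abelian groups of exponent three: sets of pairwise different elements up to sign
(MP_ec93d3_co)
-/

set_option autoImplicit false

namespace Pool.Agent.EXT

open Finset Pool.Agent.Helper64.Rho

variable {G : Type*} [AddCommGroup G] [Fintype G] [DecidableEq G]

lemma mu_le (M : AddSubgroup G) (A : Finset G) : mu M A ≤ 2 ^ A.card * Nat.card M := by
  obtain ⟨R, hR, -, hc⟩ := card_sat M (FS A id)
  unfold mu
  rw [hc]
  exact Nat.mul_le_mul_right _ ((card_le_card hR).trans (card_FS_le A id))

lemma tau_ge {s j : ℕ} (h : s < j) : 3 ^ s ≤ s + tau j := by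
  have h1 := tau_mono (show 1 ≤ s + 1 by omega) (show s + 1 ≤ j from h)
  have h2 := le_tau (s + 1) (by omega)
  rw [Nat.add_sub_cancel] at h2
  omega

lemma tau_pos {j : ℕ} (h : 1 ≤ j) : 1 ≤ tau j := by
  have h1 := tau_mono (le_refl 1) h
  rw [tau_one] at h1
  exact h1

section Three

variable (h3 : ∀ x : G, x + x + x = 0)

include h3

theorem dist_bound : ∀ (s : ℕ) (M L : AddSubgroup G) (A : Finset G), Dist M A →
    M ⊔ AddSubgroup.closure (A : Set G) = L → Nat.card L = 3 ^ s * Nat.card M →
    (∀ j, 1 ≤ j → s + tau j ≤ A.card → j ≤ s ∧ Nat.card M * (3 ^ j * 2 ^ (s - j)) ≤ mu M A) ∧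
    (s + 2 ≤ A.card → Nat.card M * 2 ^ (s + 1) ≤ mu M A) ∧ Nat.card M * 2 ^ s ≤ mu M A := by
  classical
  intro s
  induction s using Nat.strong_induction_on with
  | _ s ih =>
    intro M L A hA hgen hL
    have hML : M ≤ L := by
      rw [← hgen]
      exact le_sup_left
    have hAL : ∀ a ∈ A, a ∈ L := by
      intro a ha
      rw [← hgen]
      exact (le_sup_right : AddSubgroup.closure (A : Set G) ≤ _)
        (AddSubgroup.subset_closure (mem_coe.mpr ha))
    have hc0 : 0 < Nat.card M := Nat.card_pos
    have hN : 2 * A.card + 1 ≤ 3 ^ s := by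
      have h := two_mul_card_lt h3 hML hA hAL
      rw [hL] at h
      exact Nat.le_of_mul_le_mul_right h hc0
    have hjs : ∀ j, 1 ≤ j → s + tau j ≤ A.card → j ≤ s := by
      intro j _ h
      by_contra hcon
      have h1 := tau_ge (show s < j by omega)
      omega
    rcases Nat.eq_zero_or_pos s with hs0 | hs
    · subst hs0
      rw [pow_zero] at hN
      refine ⟨fun j hj h => ?_, fun h => by omega, ?_⟩
      · exfalso
        have := tau_pos hj
        omega
      · rw [pow_zero, mul_one]
        exact card_le_sat_FS M A id
    -- an element of `A`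
    obtain ⟨b, hb⟩ : A.Nonempty := by
      rw [nonempty_iff_ne_empty]
      intro h
      subst h
      rw [coe_empty, AddSubgroup.closure_empty, sup_bot_eq] at hgen
      rw [← hgen] at hL
      have h1 : 3 ^ 1 ≤ 3 ^ s := Nat.pow_le_pow_right (by norm_num) hs
      have h2 : 3 ^ 1 * Nat.card M ≤ 3 ^ s * Nat.card M := Nat.mul_le_mul_right _ h1
      omega
    have hbM : b ∉ M := hA.1 b hb
    set M' := M ⊔ AddSubgroup.zmultiples b with hM'
    set H := stab (sat M' (FS A id)) with hH
    have hMM' : M ≤ M' := le_sup_left
    have hM'H : M' ≤ H := le_stab_sat M' _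
    have hMH : M ≤ H := hMM'.trans hM'H
    have hM'L : M' ≤ L := sup_le hML (AddSubgroup.zmultiples_le_of_mem (hAL b hb))
    have hHL : H ≤ L := stab_le hM'L hAL
    have hbM' : b ∈ M' := (le_sup_right : AddSubgroup.zmultiples b ≤ M')
      (AddSubgroup.mem_zmultiples b)
    have hbH : b ∈ H := hM'H hbM'
    have hsat : sat H (FS A id) = sat M' (FS A id) := sat_eq_of_le_stab hM'H le_rfl
    set A1 := A.filter (· ∉ H) with hA1
    set A0 := A.filter (· ∈ H) with hA0
    have hcard : A0.card + A1.card = A.card := card_filter_add_card_filter_not _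
    have hunion : A1 ∪ A0 = A := by
      rw [union_comm]
      exact filter_union_filter_not_eq _ _
    have hdisj : Disjoint A1 A0 := by
      rw [disjoint_left]
      intro x hx hx2
      exact (mem_filter.mp hx).2 (mem_filter.mp hx2).2
    -- (F)
    have hF : 2 * mu H A1 ≤ 3 * mu M A := by
      have h1 : mu H A1 = mu M' (A.erase b) := by
        rw [hA1, mu_filter]
        unfold mu
        rw [hsat, mu_erase hb hbM']
      rw [h1]
      exact two_mul_mu_le h3 hb hbM
    -- product
    have hprod : mu H A1 * mu M A0 ≤ mu M A * Nat.card H := by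
      have h1 := card_prod_le M H id A0 A1 hdisj (fun i hi => (mem_filter.mp hi).2) hMH
      rw [hunion] at h1
      exact h1
    obtain ⟨q, hq⟩ := exists_pow h3 hMH
    obtain ⟨r, hr⟩ := exists_pow h3 hHL
    have hcH : 0 < Nat.card H := Nat.card_pos
    have hqs : r + q = s := by
      have e : 3 ^ (r + q) * Nat.card M = 3 ^ s * Nat.card M := by
        rw [← hL, hr, hq, pow_add]
        ring
      exact Nat.pow_right_injective (le_refl 3 |>.trans' (by norm_num))
        (Nat.eq_of_mul_eq_mul_right hc0 e)
    have hq1 : 1 ≤ q := by
      by_contra h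
      have h0 : q = 0 := by omega
      rw [h0, pow_zero, one_mul] at hq
      have h1 := eq_of_card hMH hq.le
      rw [← h1] at hbH
      exact hbM hbH
    have d1 : Dist H A1 := dist_stab h3 M' A
    have hgen1 : H ⊔ AddSubgroup.closure (A1 : Set G) = L := by
      apply le_antisymm
      · refine sup_le hHL ?_
        rw [AddSubgroup.closure_le]
        intro x hx
        exact hAL x (mem_filter.mp (mem_coe.mp hx)).1
      · rw [← hgen]
        refine sup_le (hMH.trans le_sup_left) ?_
        rw [AddSubgroup.closure_le]
        intro x hx
        by_cases h : x ∈ H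
        · exact (le_sup_left : H ≤ _) h
        · exact (le_sup_right : AddSubgroup.closure (A1 : Set G) ≤ _)
            (AddSubgroup.subset_closure (mem_coe.mpr (mem_filter.mpr ⟨mem_coe.mp hx, h⟩)))
    rcases Nat.eq_zero_or_pos r with hr0 | hr1
    · -- `H = L`
      have hqs' : q = s := by omega
      subst hqs'
      have h1 : Nat.card H ≤ mu H A1 := card_le_sat_FS H A1 id
      have e3 : 3 ^ q = 3 * 3 ^ (q - 1) := by
        rw [← pow_succ']
        congr 1
        omega
      have key : Nat.card M * (2 * 3 ^ (q - 1)) ≤ mu M A := by
        rw [hq, e3] at h1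
        have h2 : 3 * 3 ^ (q - 1) * Nat.card M = 3 * (3 ^ (q - 1) * Nat.card M) := by ring
        rw [h2] at h1
        have h4 : Nat.card M * (2 * 3 ^ (q - 1)) = 2 * (3 ^ (q - 1) * Nat.card M) := by ring
        rw [h4]
        omega
      refine ⟨fun j hj h => ⟨hjs j hj h, ?_⟩, fun h => ?_, ?_⟩
      · rcases Nat.lt_or_ge j q with hlt | hge
        · have h2 := pow_le_mix (j := j) (q := q - 1) (s := q) (by omega) (by omega)
          have e : q - (q - 1) = 1 := by omega
          rw [e, pow_one, mul_comm (3 ^ (q - 1)) 2] at h2
          exact (Nat.mul_le_mul_left _ h2).trans key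
        · have hjq : j = q := le_antisymm (hjs j hj h) hge
          subst hjq
          rw [Nat.sub_self, pow_zero, mul_one, mul_comm, ← hL]
          have hj3 : 3 ≤ j := by
            by_contra hcon
            have h5 : j = 1 ∨ j = 2 := by omega
            rcases h5 with rfl | rfl
            · rw [tau_one] at h
              omega
            · rw [tau_two] at h
              omega
          have h6 := tau_eq hj3
          exact critical h3 hj3 hA hML hAL hL (by omega)
      · have h5 : 2 ≤ q := by
          by_contra hcon
          have h6 : q = 1 := by omega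
          subst h6
          omega
        rcases Nat.lt_or_ge q 3 with h6 | h6
        · have h7 : q = 2 := by omega
          subst h7
          have h8 := four h3 hA hML hAL (by rw [hL]; norm_num) (by omega)
          rw [mul_comm]
          exact h8
        · have h7 : 2 ^ (q + 1) ≤ 2 * 3 ^ (q - 1) := by
            obtain ⟨t, rfl⟩ := Nat.exists_eq_add_of_le h6
            have e1 : 3 + t - 1 = 2 + t := by omega
            rw [e1, pow_add 3 2 t, show 3 + t + 1 = 4 + t by omega, pow_add 2 4 t]
            have h8 : 2 ^ t ≤ 3 ^ t := Nat.pow_le_pow_left (by norm_num) t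
            omega
          exact (Nat.mul_le_mul_left _ h7).trans key
      · have h7 : 2 ^ q ≤ 2 * 3 ^ (q - 1) := by
          obtain ⟨t, rfl⟩ := Nat.exists_eq_add_of_le hs
          have e1 : 0 + 1 + t - 1 = t := by omega
          rw [e1, show 0 + 1 + t = 1 + t by omega, pow_add 2 1 t]
          have h8 : 2 ^ t ≤ 3 ^ t := Nat.pow_le_pow_left (by norm_num) t
          omega
        exact (Nat.mul_le_mul_left _ h7).trans key
    · -- `H ≠ L`
      obtain ⟨i1, i2, i3⟩ := ih r (by omega) H L A1 d1 hgen1 hr
      have hsr : s - q = r := by omega
      have hn : 2 * A0.card + 1 ≤ 3 ^ q := by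
        have h := two_mul_card_lt h3 hMH (hA.mono (filter_subset _ _))
          (A := A0) (fun a ha => (mem_filter.mp ha).2)
        rw [hq] at h
        exact Nat.le_of_mul_le_mul_right h hc0
      by_cases hfull : Nat.card H ≤ mu M A0
      · -- the sums of `A0` are all of `H`
        have hmu : mu H A1 ≤ mu M A :=
          Nat.le_of_mul_le_mul_right ((Nat.mul_le_mul_left _ hfull).trans hprod) hcH
        have hq2 : 2 ≤ q := by
          by_contra hcon
          have h5 : q = 1 := by omega
          rw [h5] at hn hq
          have h6 := mu_le M A0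
          have h7 : A0.card ≤ 1 := by omega
          have h8 : 2 ^ A0.card ≤ 2 ^ 1 := Nat.pow_le_pow_right (by norm_num) h7
          have h9 := Nat.mul_le_mul_right (Nat.card M) h8
          omega
        have hbase : Nat.card M * (3 ^ q * 2 ^ (s - q)) ≤ mu M A := by
          rw [hsr]
          calc Nat.card M * (3 ^ q * 2 ^ r) = Nat.card H * 2 ^ r := by rw [hq]; ring
            _ ≤ mu H A1 := i3
            _ ≤ mu M A := hmu
        refine ⟨fun j hj h => ⟨hjs j hj h, ?_⟩, fun h => ?_, ?_⟩
        · rcases Nat.lt_or_ge q j with hlt | hge
          · have h5 := tau_sub hq2 hlt hn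
            obtain ⟨h6, h7⟩ := i1 (j - q) (by omega) (by omega)
            calc Nat.card M * (3 ^ j * 2 ^ (s - j))
                = Nat.card H * (3 ^ (j - q) * 2 ^ (r - (j - q))) := by
                  have e1 : s - j = r - (j - q) := by omega
                  have e2 : 3 ^ j = 3 ^ q * 3 ^ (j - q) := by
                    rw [← pow_add]
                    congr 1
                    omega
                  rw [hq, e1, e2]
                  ring
              _ ≤ mu H A1 := h7
              _ ≤ mu M A := hmu
          · exact (Nat.mul_le_mul_left _ (pow_le_mix hge (by omega))).trans hbase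
        · have h5 := pow_le_mix (j := 2) (q := q) (s := s) hq2 (by omega)
          have h6 : 2 ^ (s + 1) ≤ 3 ^ 2 * 2 ^ (s - 2) := by
            have e : s + 1 = 3 + (s - 2) := by omega
            rw [e, pow_add 2 3]
            have e' : 3 + (s - 2) - 1 - 2 = s - 2 - 0 - 0 := by omega
            refine Nat.mul_le_mul_right _ (by norm_num)
          exact (Nat.mul_le_mul_left _ (h6.trans h5)).trans hbase
        · have h5 := pow_le_mix (j := 0) (q := q) (s := s) (by omega) (by omega)
          rw [pow_zero, one_mul, Nat.sub_zero] at h5
          exact (Nat.mul_le_mul_left _ h5).trans hbase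
      · -- the sums of `A0` are not all of `H`
        push Not at hfull
        have hnq : A0.card + 1 ≤ q + tau q := by
          by_contra hcon
          have hcon' : q + tau q ≤ A0.card := by omega
          have hL0 : M ⊔ AddSubgroup.closure (A0 : Set G) ≤ H := by
            refine sup_le hMH ?_
            rw [AddSubgroup.closure_le]
            intro x hx
            exact (mem_filter.mp (mem_coe.mp hx)).2
          obtain ⟨q0, hq0⟩ := exists_pow h3 (show M ≤ M ⊔ AddSubgroup.closure (A0 : Set G) from
            le_sup_left)
          obtain ⟨t, ht⟩ := exists_pow h3 hL0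
          have hqt : t + q0 = q := by
            have e : 3 ^ (t + q0) * Nat.card M = 3 ^ q * Nat.card M := by
              rw [← hq, ht, hq0, pow_add]
              ring
            exact Nat.pow_right_injective (le_refl 3 |>.trans' (by norm_num))
              (Nat.eq_of_mul_eq_mul_right hc0 e)
          obtain ⟨k1, -, -⟩ := ih q0 (by omega) M _ A0 (hA.mono (filter_subset _ _)) rfl hq0
          rcases Nat.lt_or_ge q0 q with h5 | h5
          · have h6 := tau_mono (show 1 ≤ q0 + 1 by omega) (show q0 + 1 ≤ q by omega)
            have h7 := (k1 (q0 + 1) (by omega) (by omega)).1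
            omega
          · have h6 : q0 = q := by omega
            have h7 := (k1 q hq1 (by omega)).2
            rw [h6, Nat.sub_self, pow_zero, mul_one, mul_comm, ← hq] at h7
            omega
        have hbase : Nat.card M * (2 * (3 ^ q * 2 ^ (s - q))) ≤ 3 * mu M A := by
          rw [hsr]
          calc Nat.card M * (2 * (3 ^ q * 2 ^ r)) = 2 * (Nat.card H * 2 ^ r) := by rw [hq]; ring
            _ ≤ 2 * mu H A1 := Nat.mul_le_mul_left _ i3
            _ ≤ 3 * mu M A := hF
        refine ⟨fun j hj h => ⟨hjs j hj h, ?_⟩, fun h => ?_, ?_⟩
        · rcases Nat.lt_or_ge j q with hlt | hge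
          · have h5 := pow_le_mix (j := j) (q := q - 1) (s := s) (by omega) (by omega)
            have e1 : s - (q - 1) = (s - q) + 1 := by omega
            have e2 : 3 ^ q = 3 ^ (q - 1) * 3 := by
              rw [← pow_succ]
              congr 1
              omega
            rw [e1, pow_succ] at h5
            rw [e2] at hbase
            have h6 := Nat.mul_le_mul_left (Nat.card M) h5
            have e3 : Nat.card M * (2 * (3 ^ (q - 1) * 3 * 2 ^ (s - q))) =
              3 * (Nat.card M * (3 ^ (q - 1) * (2 ^ (s - q) * 2))) := by ring
            rw [e3] at hbase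
            omega
          · have h5 := tau_split hq1 hge
            obtain ⟨h6, h7⟩ := i1 (j - q + 1) (by omega) (by omega)
            have e0 : r - (j - q + 1) = s - j - 1 := by omega
            have e1 : 2 ^ (s - j) = 2 ^ (s - j - 1) * 2 := by
              rw [← pow_succ]
              congr 1
              omega
            have e2 : 3 ^ j * 3 = 3 ^ q * 3 ^ (j - q + 1) := by
              rw [← pow_succ, ← pow_add]
              congr 1
              omega
            have h8 : 3 * (Nat.card M * (3 ^ j * 2 ^ (s - j))) ≤ 3 * mu M A := by
              calc 3 * (Nat.card M * (3 ^ j * 2 ^ (s - j)))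
                  = 2 * (Nat.card M * ((3 ^ j * 3) * 2 ^ (s - j - 1))) := by rw [e1]; ring
                _ = 2 * (Nat.card H * (3 ^ (j - q + 1) * 2 ^ (r - (j - q + 1)))) := by
                    rw [e2, e0, hq]; ring
                _ ≤ 2 * mu H A1 := Nat.mul_le_mul_left _ h7
                _ ≤ 3 * mu M A := hF
            omega
        · rcases Nat.lt_or_ge q 3 with hq3 | hq3
          · have h5 : q = 1 ∨ q = 2 := by omega
            rcases h5 with h5 | h5
            · rw [h5, tau_one] at hnq
              have h6 := i2 (by omega)
              rw [hq, h5] at h6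
              have e : r + 1 = s := by omega
              rw [e] at h6
              have h7 : 3 * (Nat.card M * 2 ^ (s + 1)) ≤ 3 * mu M A := by
                calc 3 * (Nat.card M * 2 ^ (s + 1)) = 2 * (3 ^ 1 * Nat.card M * 2 ^ s) := by
                      rw [pow_succ]; ring
                  _ ≤ 2 * mu H A1 := Nat.mul_le_mul_left _ h6
                  _ ≤ 3 * mu M A := hF
              omega
            · rw [h5, tau_two] at hnq
              have e : s + 1 = 3 + r := by omega
              by_cases h6 : r + 1 ≤ A1.card
              · obtain ⟨h7, h8⟩ := i1 1 le_rfl (by rw [tau_one]; exact h6)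
                have e1 : 2 ^ r = 2 ^ (r - 1) * 2 := by
                  rw [← pow_succ]
                  congr 1
                  omega
                have h9 : 3 * (Nat.card M * 2 ^ (s + 1)) ≤ 3 * mu M A := by
                  calc 3 * (Nat.card M * 2 ^ (s + 1)) = 48 * (Nat.card M * 2 ^ (r - 1)) := by
                        rw [e, pow_add, e1]; ring
                    _ ≤ 54 * (Nat.card M * 2 ^ (r - 1)) := Nat.mul_le_mul_right _ (by norm_num)
                    _ = 2 * (Nat.card H * (3 ^ 1 * 2 ^ (r - 1))) := by rw [hq, h5]; ring
                    _ ≤ 2 * mu H A1 := Nat.mul_le_mul_left _ h8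
                    _ ≤ 3 * mu M A := hF
                omega
              · have h7 := four h3 (hA.mono (filter_subset _ _)) hMH (A := A0)
                  (fun a ha => (mem_filter.mp ha).2) (by rw [hq, h5]; norm_num) (by omega)
                have h8 : Nat.card M * 2 ^ (s + 1) * Nat.card H ≤ mu M A * Nat.card H := by
                  calc Nat.card M * 2 ^ (s + 1) * Nat.card H
                      = (Nat.card H * 2 ^ r) * (8 * Nat.card M) := by
                        rw [e, pow_add]; ring
                    _ ≤ mu H A1 * mu M A0 := Nat.mul_le_mul i3 h7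
                    _ ≤ mu M A * Nat.card H := hprod
                exact Nat.le_of_mul_le_mul_right h8 hcH
          · have h5 := pow_le_mix (j := 3) (q := q) (s := s) hq3 (by omega)
            have e : s + 1 = 4 + (s - 3) := by omega
            have h6 : 3 * 2 ^ (s + 1) ≤ 2 * (3 ^ q * 2 ^ (s - q)) := by
              rw [e, pow_add]
              have e3 : 3 ^ 3 * 2 ^ (4 + (s - 3) - 1 - 3) = 3 ^ 3 * 2 ^ (s - 3) := by
                congr 2
                omega
              omega
            have h7 := Nat.mul_le_mul_left (Nat.card M) h6
            have e2 : Nat.card M * (3 * 2 ^ (s + 1)) = 3 * (Nat.card M * 2 ^ (s + 1)) := by ring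
            rw [e2] at h7
            omega
        · have h5 := pow_le_mix (j := 1) (q := q) (s := s) hq1 (by omega)
          have e1 : 2 ^ s = 2 ^ (s - 1) * 2 := by
            rw [← pow_succ]
            congr 1
            omega
          have h6 : 3 * 2 ^ s ≤ 2 * (3 ^ q * 2 ^ (s - q)) := by
            rw [e1]
            omega
          have h7 := Nat.mul_le_mul_left (Nat.card M) h6
          have e2 : Nat.card M * (3 * 2 ^ s) = 3 * (Nat.card M * 2 ^ s) := by ring
          rw [e2] at h7
          omega

end Three

end Pool.Agent.EXT
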