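import Pool.Agent.EXT.Basic

/-!
# Subset sums in abelian groups of exponent three: large sets (MP_ec93d3_co)
-/

set_option autoImplicit false

namespace Pool.Agent.EXT

open Finset Pool.Agent.Helper64.Rho

/-! ### arithmetic -/

/-- the thresholds -/
def tau (j : ℕ) : ℕ := if j = 2 then 3 else 3 ^ (j - 1) - (j - 1)

lemma lt_pow3 (n : ℕ) : n + 1 ≤ 3 ^ n := by
  induction n with
  | zero => norm_num
  | succ n ih =>
    rw [pow_succ]
    omega

lemma tau_one : tau 1 = 1 := by decide

lemma tau_two : tau 2 = 3 := by decide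

lemma tau_eq {j : ℕ} (h : 3 ≤ j) : tau j + (j - 1) = 3 ^ (j - 1) := by
  unfold tau
  rw [if_neg (by omega)]
  have := lt_pow3 (j - 1)
  omega

lemma tau_le (j : ℕ) (h : 1 ≤ j) : tau j + (j - 1) ≤ 3 ^ (j - 1) + 1 := by
  rcases Nat.lt_or_ge j 3 with h1 | h1
  · have h2 : j = 1 ∨ j = 2 := by omega
    rcases h2 with rfl | rfl
    · rw [tau_one]; norm_num
    · rw [tau_two]; norm_num
  · rw [tau_eq h1]
    omega

lemma le_tau (j : ℕ) (h : 1 ≤ j) : 3 ^ (j - 1) ≤ tau j + (j - 1) := by
  rcases Nat.lt_or_ge j 3 with h1 | h1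
  · have h2 : j = 1 ∨ j = 2 := by omega
    rcases h2 with rfl | rfl
    · rw [tau_one]; norm_num
    · rw [tau_two]; norm_num
  · rw [tau_eq h1]

lemma tau_mono_succ (j : ℕ) (h : 1 ≤ j) : tau j ≤ tau (j + 1) := by
  rcases Nat.lt_or_ge j 3 with h1 | h1
  · have h2 : j = 1 ∨ j = 2 := by omega
    rcases h2 with rfl | rfl
    · decide
    · decide
  · have e1 := tau_eq h1
    have e2 := tau_eq (show 3 ≤ j + 1 by omega)
    have e3 : 3 ^ (j + 1 - 1) = 3 * 3 ^ (j - 1) := by
      rw [← pow_succ']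
      congr 1
      omega
    have e4 := lt_pow3 (j - 1)
    rw [e3] at e2
    omega

lemma tau_mono {i j : ℕ} (hi : 1 ≤ i) (h : i ≤ j) : tau i ≤ tau j := by
  induction j with
  | zero => omega
  | succ j ih =>
    rcases Nat.lt_or_ge i (j + 1) with h1 | h1
    · exact (ih (by omega)).trans (tau_mono_succ j (by omega))
    · have : i = j + 1 := by omega
      rw [this]

lemma pow_le_mix {j q s : ℕ} (h : j ≤ q) (hq : q ≤ s) : 3 ^ j * 2 ^ (s - j) ≤ 3 ^ q * 2 ^ (s - q) := by
  obtain ⟨t, rfl⟩ := Nat.exists_eq_add_of_le h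
  obtain ⟨r, rfl⟩ := Nat.exists_eq_add_of_le hq
  have e1 : j + t + r - j = t + r := by omega
  have e2 : j + t + r - (j + t) = r := by omega
  rw [e1, e2, pow_add, pow_add, ← mul_assoc]
  refine Nat.mul_le_mul_right _ (Nat.mul_le_mul_left _ ?_)
  exact Nat.pow_le_pow_left (by norm_num) t

lemma tau_sub {q j n : ℕ} (hq : 2 ≤ q) (hj : q < j) (hn : 2 * n + 1 ≤ 3 ^ q) :
    n + tau (j - q) ≤ tau j + q := by
  obtain ⟨t, rfl⟩ := Nat.exists_eq_add_of_lt hj
  have e1 := tau_le (q + t + 1 - q) (by omega)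
  have e2 := tau_eq (show 3 ≤ q + t + 1 by omega)
  have e3 : q + t + 1 - q - 1 = t := by omega
  have e4 : q + t + 1 - 1 = q + t := by omega
  rw [e3] at e1
  rw [e4, pow_add] at e2
  have h1 : 3 ^ 2 ≤ 3 ^ q := Nat.pow_le_pow_right (by norm_num) hq
  have h2 := lt_pow3 t
  have h4 : 1 ≤ 3 ^ t := by omega
  -- `n + 3 ^ t + 1 ≤ 3 ^ q * 3 ^ t`
  have h5 : n + 3 ^ t + 1 ≤ 3 ^ q * 3 ^ t := by
    generalize 3 ^ q = Q at *
    generalize 3 ^ t = T at *
    nlinarith
  omega

lemma tau_split {q j : ℕ} (hq : 1 ≤ q) (hj : q ≤ j) : tau q + tau (j - q + 1) ≤ tau j + 1 := by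
  rcases Nat.lt_or_ge 1 q with h1 | h1
  · rcases Nat.lt_or_ge q j with h2 | h2
    · obtain ⟨t, rfl⟩ := Nat.exists_eq_add_of_lt h2
      have e1 := tau_le q hq
      have e2 := tau_le (q + t + 1 - q + 1) (by omega)
      have e3 := tau_eq (show 3 ≤ q + t + 1 by omega)
      have e4 : q + t + 1 - q + 1 - 1 = t + 1 := by omega
      have e5 : q + t + 1 - 1 = (q - 1) + (t + 1) := by omega
      rw [e4] at e2
      rw [e5, pow_add] at e3
      have h4 : 3 ^ 1 ≤ 3 ^ (q - 1) := Nat.pow_le_pow_right (by norm_num) (by omega)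
      have h5 : 3 ^ 1 ≤ 3 ^ (t + 1) := Nat.pow_le_pow_right (by norm_num) (by omega)
      have h6 : 3 ^ (q - 1) + 3 ^ (t + 1) + 1 ≤ 3 ^ (q - 1) * 3 ^ (t + 1) := by
        generalize 3 ^ (q - 1) = Q at *
        generalize 3 ^ (t + 1) = T at *
        nlinarith
      omega
    · have h3 : q = j := by omega
      subst h3
      have e : q - q + 1 = 1 := by omega
      rw [e, tau_one]
  · have h2 : q = 1 := by omega
    subst h2
    have e : j - 1 + 1 = j := by omega
    rw [e, tau_one]
    omega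

lemma pow_sum_le {q s : ℕ} (h1 : 1 ≤ q) (h2 : q < s) : 3 ^ (s - q) + 3 ^ q ≤ 3 ^ (s - 1) + 3 := by
  have e1 : 3 ^ (s - q) * 3 ^ q = 3 * 3 ^ (s - 1) := by
    rw [← pow_add, ← pow_succ']
    congr 1
    omega
  have h3 : 3 ^ 1 ≤ 3 ^ (s - q) := Nat.pow_le_pow_right (by norm_num) (by omega)
  have h4 : 3 ^ 1 ≤ 3 ^ q := Nat.pow_le_pow_right (by norm_num) (by omega)
  generalize 3 ^ (s - q) = a at *
  generalize 3 ^ q = b at *
  generalize 3 ^ (s - 1) = c at *
  nlinarith

variable {G : Type*} [AddCommGroup G] [Fintype G] [DecidableEq G]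

lemma stab_le {M L : AddSubgroup G} {A : Finset G} (hML : M ≤ L) (hA : ∀ a ∈ A, a ∈ L) :
    stab (sat M (FS A id)) ≤ L := by
  intro g hg
  have h0 : (0 : G) ∈ sat M (FS A id) := subset_sat M _ (zero_mem_FS A id)
  have h1 := (mem_stab.mp hg 0).mp h0
  rw [zero_add] at h1
  obtain ⟨y, hy, hgy⟩ := mem_sat.mp h1
  have h2 : y ∈ L := FS_subset_of_mem (f := id) hA hy
  have e : g = (g - y) + y := by abel
  rw [e]
  exact L.add_mem (hML hgy) h2

omit [DecidableEq G] in
lemma card_mono {M L : AddSubgroup G} (h : M ≤ L) : Nat.card M ≤ Nat.card L :=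
  Nat.card_le_card_of_injective (AddSubgroup.inclusion h) (AddSubgroup.inclusion_injective h)

omit [DecidableEq G] in
lemma eq_of_card {M L : AddSubgroup G} (h : M ≤ L) (hc : Nat.card L ≤ Nat.card M) : M = L := by
  have h1 : elts M ⊆ elts L := fun x hx => mem_elts.mpr (h (mem_elts.mp hx))
  have h2 : elts M = elts L := eq_of_subset_of_card_le h1 (by rw [card_elts, card_elts]; exact hc)
  ext x
  rw [← mem_elts, h2, mem_elts]

section Three

variable (h3 : ∀ x : G, x + x + x = 0)

include h3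

/-- all cosets of `M + ⟨b⟩` are met -/
lemma full {M L : AddSubgroup G} {A B : Finset G} {b : G} {s : ℕ} (hA : Dist M A) (hML : M ≤ L)
    (hAL : ∀ a ∈ A, a ∈ L) (hL : Nat.card L = 3 ^ s * Nat.card M) (hb : b ∈ A)
    (hB : B ⊆ A.erase b) (hc : 3 ^ (s - 1) ≤ 2 * B.card) :
    ∀ x ∈ L, x ∈ sat (M ⊔ AddSubgroup.zmultiples b) (FS B id) := by
  classical
  set M' := M ⊔ AddSubgroup.zmultiples b with hM'
  set H := stab (sat M' (FS B id)) with hH
  have hbM : b ∉ M := hA.1 b hb
  have hMM' : M ≤ M' := le_sup_left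
  have hM'H : M' ≤ H := le_stab_sat M' _
  have hM'L : M' ≤ L := sup_le hML (AddSubgroup.zmultiples_le_of_mem (hAL b hb))
  have hBA : B ⊆ A := hB.trans (erase_subset _ _)
  have hHL : H ≤ L := stab_le hM'L (fun a ha => hAL a (hBA ha))
  have hbH : b ∈ H := hM'H ((le_sup_right : AddSubgroup.zmultiples b ≤ M')
    (AddSubgroup.mem_zmultiples b))
  by_contra hcon
  have hne : H ≠ L := by
    intro he
    apply hcon
    intro x hx
    rw [← he] at hx
    have h0 : (0 : G) ∈ sat M' (FS B id) := subset_sat M' _ (zero_mem_FS B id)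
    have h1 := (mem_stab.mp hx 0).mp h0
    rwa [zero_add] at h1
  have hc0 : 0 < Nat.card M := Nat.card_pos
  have hcH : 0 < Nat.card H := Nat.card_pos
  obtain ⟨q, hq⟩ := exists_pow h3 (hMM'.trans hM'H)
  obtain ⟨r, hr⟩ := exists_pow h3 hHL
  have hqs : r + q = s := by
    have e : 3 ^ (r + q) * Nat.card M = 3 ^ s * Nat.card M := by
      rw [← hL, hr, hq, pow_add]
      ring
    exact Nat.pow_right_injective (le_refl 3 |>.trans' (by norm_num))
      (Nat.eq_of_mul_eq_mul_right hc0 e)
  have hq1 : 1 ≤ q := by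
    by_contra h
    have h0 : q = 0 := by omega
    rw [h0, pow_zero, one_mul] at hq
    have h1 := eq_of_card (hMM'.trans hM'H) hq.le
    rw [← h1] at hbH
    exact hbM hbH
  have hr1 : 1 ≤ r := by
    by_contra h
    have h0 : r = 0 := by omega
    rw [h0, pow_zero, one_mul] at hr
    exact hne (eq_of_card hHL hr.le)
  -- outside `H`
  have d1 : Dist H (B.filter (· ∉ H)) := dist_stab h3 M' B
  have n1 := two_mul_card_lt h3 hHL d1 (fun a ha => hAL a (hBA (mem_filter.mp ha).1))
  rw [hr] at n1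
  have n1' : 2 * (B.filter (· ∉ H)).card + 1 ≤ 3 ^ r := Nat.le_of_mul_le_mul_right n1 hcH
  -- inside `H`
  have hbB : b ∉ B.filter (· ∈ H) := by
    intro h
    exact notMem_erase b A (hB (mem_filter.mp h).1)
  have d2 : Dist M (insert b (B.filter (· ∈ H))) := by
    apply hA.mono
    intro x hx
    rcases mem_insert.mp hx with rfl | hx
    · exact hb
    · exact hBA (mem_filter.mp hx).1
  have n2 := two_mul_card_lt h3 (hMM'.trans hM'H) d2 (by
    intro a ha
    rcases mem_insert.mp ha with rfl | ha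
    · exact hbH
    · exact (mem_filter.mp ha).2)
  rw [hq, card_insert_of_notMem hbB] at n2
  have n2' : 2 * ((B.filter (· ∈ H)).card + 1) + 1 ≤ 3 ^ q := Nat.le_of_mul_le_mul_right n2 hc0
  have hsum : (B.filter (· ∈ H)).card + (B.filter (· ∉ H)).card = B.card :=
    card_filter_add_card_filter_not _
  have hpow := pow_sum_le (s := s) hq1 (by omega)
  have e : s - q = r := by omega
  rw [e] at hpow
  omega

/-- four elements in rank two -/
lemma four {M L : AddSubgroup G} {A : Finset G} (hA : Dist M A) (hML : M ≤ L)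
    (hAL : ∀ a ∈ A, a ∈ L) (hL : Nat.card L = 9 * Nat.card M) (hc : 4 ≤ A.card) :
    8 * Nat.card M ≤ mu M A := by
  classical
  have hL' : Nat.card L = 3 ^ 2 * Nat.card M := by rw [hL]; norm_num
  have hc0 : 0 < Nat.card M := Nat.card_pos
  -- every element of `L` outside `M` is congruent to an element of `A` up to sign
  have hcov : ∀ z ∈ L, z ∉ M → ∃ a ∈ A, z - a ∈ M ∨ z + a ∈ M := by
    intro z hz hzM
    by_contra hcon
    push Not at hcon
    have hzA : z ∉ A := by
      intro h
      apply (hcon z h).1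
      rw [sub_self]
      exact M.zero_mem
    have d : Dist M (insert z A) := by
      refine ⟨?_, ?_⟩
      · intro a ha
        rcases mem_insert.mp ha with rfl | ha
        · exact hzM
        · exact hA.1 a ha
      · intro a ha b hb hab
        rcases mem_insert.mp ha with ha1 | ha1
        · rcases mem_insert.mp hb with hb1 | hb1
          · exact absurd (ha1.trans hb1.symm) hab
          · rw [ha1]
            exact hcon b hb1
        · rcases mem_insert.mp hb with hb1 | hb1
          · rw [hb1]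
            refine ⟨?_, ?_⟩
            · intro h
              apply (hcon a ha1).1
              have := M.neg_mem h
              rwa [neg_sub] at this
            · rw [add_comm]
              exact (hcon a ha1).2
          · exact hA.2 a ha1 b hb1 hab
    have n1 := two_mul_card_lt h3 hML d (by
      intro a ha
      rcases mem_insert.mp ha with rfl | ha
      · exact hz
      · exact hAL a ha)
    rw [hL, card_insert_of_notMem hzA] at n1
    have n2 := Nat.le_of_mul_le_mul_right n1 hc0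
    omega
  -- the complement
  set C := elts L \ sat M (FS A id) with hC
  have hCM : ∀ x ∈ C, ∀ y ∈ C, x - y ∈ M := by
    intro x hx y hy
    by_contra hxy
    obtain ⟨hx1, hx2⟩ := mem_sdiff.mp hx
    obtain ⟨hy1, hy2⟩ := mem_sdiff.mp hy
    have hx1 := mem_elts.mp hx1
    have hy1 := mem_elts.mp hy1
    obtain ⟨a, ha, h⟩ := hcov _ (L.sub_mem hx1 hy1) hxy
    have hf := full h3 (s := 2) (B := A.erase a) hA hML hAL hL' ha (Subset.refl _)
      (by rw [card_erase_of_mem ha]; norm_num; omega)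
    apply hxy
    refine compl_unique h3 ha (hf x hx1) (hf y hy1) hx2 hy2 ?_
    rw [mem_sup3 h3]
    rcases h with h | h
    · exact Or.inr (Or.inl h)
    · exact Or.inr (Or.inr h)
  have hCc : C.card ≤ Nat.card M := by
    rcases C.eq_empty_or_nonempty with h | ⟨x, hx⟩
    · rw [h, card_empty]
      omega
    · rw [← card_elts]
      apply card_le_card_of_injOn (fun y => y - x)
      · intro y hy
        exact mem_coe.mpr (mem_elts.mpr (hCM y (mem_coe.mp hy) x hx))
      · intro y _ z _ hyz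
        exact sub_left_injective hyz
  have h1 : (elts L).card ≤ C.card + (sat M (FS A id)).card := by
    have h2 : elts L ⊆ C ∪ sat M (FS A id) := by
      intro x hx
      by_cases h : x ∈ sat M (FS A id)
      · exact mem_union_right _ h
      · exact mem_union_left _ (mem_sdiff.mpr ⟨hx, h⟩)
    exact (card_le_card h2).trans (card_union_le _ _)
  rw [card_elts, hL] at h1
  unfold mu
  omega

/-- the critical number -/
lemma critical {M L : AddSubgroup G} {A : Finset G} {s : ℕ} (hs : 3 ≤ s) (hA : Dist M A)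
    (hML : M ≤ L) (hAL : ∀ a ∈ A, a ∈ L) (hL : Nat.card L = 3 ^ s * Nat.card M)
    (hc : 3 ^ (s - 1) + 1 ≤ A.card) : Nat.card L ≤ mu M A := by
  classical
  have hp : 3 ^ 2 ≤ 3 ^ (s - 1) := Nat.pow_le_pow_right (by norm_num) (by omega)
  have hc0 : 0 < Nat.card M := Nat.card_pos
  have hAne : A.Nonempty := by
    rw [← card_pos]
    omega
  obtain ⟨b, hb⟩ := hAne
  set M' := M ⊔ AddSubgroup.zmultiples b with hM'
  have hM'L : M' ≤ L := sup_le hML (AddSubgroup.zmultiples_le_of_mem (hAL b hb))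
  have hcM' : Nat.card M' = 3 * Nat.card M := card_sup3 h3 (hA.1 b hb)
  -- two further elements in the plane
  obtain ⟨b1, hb1, b2, hb2, hb12, hb⟩ : ∃ b1 ∈ A.erase b, ∃ b2 ∈ A.erase b, b1 ≠ b2 ∧
      (b1 - b2 ∈ M' ∨ b1 + b2 ∈ M') := by
    by_contra hcon
    push Not at hcon
    have d : Dist M' (A.erase b) := by
      refine ⟨?_, fun a ha c hc hac => hcon a ha c hc hac⟩
      intro a ha haM
      obtain ⟨hab, haA⟩ := mem_erase.mp ha
      rcases (mem_sup3 h3 M b a).mp haM with h | h | h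
      · exact hA.1 a haA h
      · exact (hA.2 a haA b hb hab).1 h
      · exact (hA.2 a haA b hb hab).2 h
    have n1 := two_mul_card_lt h3 hM'L d (fun a ha => hAL a (mem_of_mem_erase ha))
    have e : Nat.card L = 3 ^ (s - 1) * Nat.card M' := by
      rw [hL, hcM', ← mul_assoc, ← pow_succ]
      congr 2
      omega
    rw [e, card_erase_of_mem hb] at n1
    have n2 := Nat.le_of_mul_le_mul_right n1 (by rw [hcM']; omega)
    omega
  rename_i hbA
  have hb1A := mem_of_mem_erase hb1
  have hb2A := mem_of_mem_erase hb2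
  set A' := (A.erase b1).erase b2 with hA'
  have hA'A : A' ⊆ A := (erase_subset _ _).trans (erase_subset _ _)
  have hbA' : b ∈ A' := by
    rw [hA', mem_erase, mem_erase]
    exact ⟨(mem_erase.mp hb2).1.symm, (mem_erase.mp hb1).1.symm, hbA⟩
  have hA'c : A'.card = A.card - 2 := by
    rw [hA', card_erase_of_mem (mem_erase.mpr ⟨hb12.symm, hb2A⟩), card_erase_of_mem hb1A]
    omega
  have hf := full h3 (s := s) (B := A'.erase b) (hA.mono hA'A) hML
    (fun a ha => hAL a (hA'A ha)) hL hbA' (Subset.refl _)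
    (by rw [card_erase_of_mem hbA', hA'c]; omega)
  -- sums with `b1`, `b2`
  have hadd : ∀ x, (x ∈ sat M (FS A' id) ∨ x - b1 ∈ sat M (FS A' id) ∨
      x - b2 ∈ sat M (FS A' id) ∨ x - (b1 + b2) ∈ sat M (FS A' id)) → x ∈ sat M (FS A id) := by
    have hFS : ∀ y ∈ FS A' id, y ∈ FS A id ∧ y + b1 ∈ FS A id ∧ y + b2 ∈ FS A id ∧
        y + (b1 + b2) ∈ FS A id := by
      intro y hy
      have e2 := FS_insert (f := id) (notMem_erase b2 (A.erase b1))
      rw [insert_erase (mem_erase.mpr ⟨hb12.symm, hb2A⟩)] at e2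
      have e1 := FS_insert (f := id) (notMem_erase b1 A)
      rw [insert_erase hb1A] at e1
      have m1 : y ∈ FS (A.erase b1) id := by
        rw [e2]; exact mem_union_left _ hy
      have m2 : y + b2 ∈ FS (A.erase b1) id := by
        rw [e2]; exact mem_union_right _ (mem_image.mpr ⟨y, hy, rfl⟩)
      refine ⟨?_, ?_, ?_, ?_⟩
      · rw [e1]; exact mem_union_left _ m1
      · rw [e1]; exact mem_union_right _ (mem_image.mpr ⟨y, m1, rfl⟩)
      · rw [e1]; exact mem_union_left _ m2
      · rw [e1]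
        refine mem_union_right _ (mem_image.mpr ⟨y + b2, m2, ?_⟩)
        show y + b2 + b1 = _
        abel
    rintro x (h | h | h | h)
    · obtain ⟨y, hy, hxy⟩ := mem_sat.mp h
      exact mem_sat.mpr ⟨y, (hFS y hy).1, hxy⟩
    · obtain ⟨y, hy, hxy⟩ := mem_sat.mp h
      refine mem_sat.mpr ⟨y + b1, (hFS y hy).2.1, ?_⟩
      have e : x - (y + b1) = x - b1 - y := by abel
      rw [e]; exact hxy
    · obtain ⟨y, hy, hxy⟩ := mem_sat.mp h
      refine mem_sat.mpr ⟨y + b2, (hFS y hy).2.2.1, ?_⟩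
      have e : x - (y + b2) = x - b2 - y := by abel
      rw [e]; exact hxy
    · obtain ⟨y, hy, hxy⟩ := mem_sat.mp h
      refine mem_sat.mpr ⟨y + (b1 + b2), (hFS y hy).2.2.2, ?_⟩
      have e : x - (y + (b1 + b2)) = x - (b1 + b2) - y := by abel
      rw [e]; exact hxy
  have hall : elts L ⊆ sat M (FS A id) := by
    intro x hx
    have hx := mem_elts.mp hx
    by_contra hcon
    have hb1L := hAL b1 hb1A
    have hb2L := hAL b2 hb2A
    have k0 : x ∉ sat M (FS A' id) := fun h => hcon (hadd x (Or.inl h))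
    have k1 : x - b1 ∉ sat M (FS A' id) := fun h => hcon (hadd x (Or.inr (Or.inl h)))
    have k2 : x - b2 ∉ sat M (FS A' id) := fun h => hcon (hadd x (Or.inr (Or.inr (Or.inl h))))
    have k3 : x - (b1 + b2) ∉ sat M (FS A' id) :=
      fun h => hcon (hadd x (Or.inr (Or.inr (Or.inr h))))
    rcases hb with h | h
    · have e : x - b2 - (x - b1) = b1 - b2 := by abel
      have h1 := compl_unique h3 hbA' (hf _ (L.sub_mem hx hb2L)) (hf _ (L.sub_mem hx hb1L)) k2 k1
        (by rw [e]; exact h)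
      rw [e] at h1
      exact (hA.2 b1 hb1A b2 hb2A hb12).1 h1
    · have e : x - (x - (b1 + b2)) = b1 + b2 := by abel
      have h1 := compl_unique h3 hbA' (hf _ hx)
        (hf _ (L.sub_mem hx (L.add_mem hb1L hb2L))) k0 k3 (by rw [e]; exact h)
      rw [e] at h1
      exact (hA.2 b1 hb1A b2 hb2A hb12).2 h1
  rw [← card_elts]
  exact card_le_card hall

end Three

end Pool.Agent.EXT
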