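import Mathlib
import Pool.Agent.EXT.Dist

/-!
# The lower bound for the number of subset sums of a generating set (MP_ec93d3_co)
-/

set_option autoImplicit false

namespace Pool.Agent.EXT

open Finset Pool.Agent.Helper64.Rho

variable {G : Type*} [AddCommGroup G] [Fintype G] [DecidableEq G]

lemma mu_bot (A : Finset G) : mu (⊥ : AddSubgroup G) A = (FS A id).card := by
  unfold mu
  congr 1
  ext x
  rw [mem_sat]
  constructor
  · rintro ⟨y, hy, hxy⟩
    rw [AddSubgroup.mem_bot, sub_eq_zero] at hxy
    rw [hxy]
    exact hy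
  · intro hx
    exact ⟨x, hx, by rw [sub_self]; exact AddSubgroup.zero_mem _⟩

lemma card_insert_zero {A : Finset G} (h0 : (0 : G) ∉ A) {H : AddSubgroup G}
    (hA : ∀ a ∈ A, a ∈ H) : A.card + 1 ≤ Nat.card H := by
  rw [← card_elts, ← card_insert_of_notMem h0]
  refine card_le_card ?_
  intro x hx
  rw [mem_elts]
  rcases mem_insert.mp hx with rfl | hx
  · exact H.zero_mem
  · exact hA x hx

section Three

variable (h3 : ∀ x : G, x + x + x = 0)

include h3

theorem lower {k : ℕ} {A : Finset G} (hG : Nat.card G = 3 ^ k) (h0 : (0 : G) ∉ A)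
    (hgen : AddSubgroup.closure (A : Set G) = ⊤) :
    (∀ j, 1 ≤ j → k + tau j ≤ A.card → j ≤ k ∧ 3 ^ j * 2 ^ (k - j) ≤ (FS A id).card) ∧
    (k + 2 ≤ A.card → 2 ^ (k + 1) ≤ (FS A id).card) ∧ 2 ^ k ≤ (FS A id).card := by
  classical
  have hm : A.card + 1 ≤ 3 ^ k := by
    have h1 := card_insert_zero h0 (H := ⊤) (fun a _ => AddSubgroup.mem_top a)
    rw [AddSubgroup.card_top, hG] at h1
    exact h1
  set H := stab (sat (⊥ : AddSubgroup G) (FS A id)) with hH
  have hsat : sat H (FS A id) = sat (⊥ : AddSubgroup G) (FS A id) :=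
    sat_eq_of_le_stab bot_le le_rfl
  set A1 := A.filter (· ∉ H) with hA1
  set A0 := A.filter (· ∈ H) with hA0
  have hcard : A0.card + A1.card = A.card := card_filter_add_card_filter_not _
  have hmu : mu H A1 = (FS A id).card := by
    rw [hA1, mu_filter, ← mu_bot]
    unfold mu
    rw [hsat]
  have d1 : Dist H A1 := dist_stab h3 ⊥ A
  have hgen1 : H ⊔ AddSubgroup.closure (A1 : Set G) = ⊤ := by
    rw [eq_top_iff, ← hgen, AddSubgroup.closure_le]
    intro x hx
    by_cases h : x ∈ H
    · exact (le_sup_left : H ≤ _) h
    · exact (le_sup_right : AddSubgroup.closure (A1 : Set G) ≤ _)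
        (AddSubgroup.subset_closure (mem_coe.mpr (mem_filter.mpr ⟨mem_coe.mp hx, h⟩)))
  obtain ⟨h, hh⟩ := exists_pow h3 (bot_le : (⊥ : AddSubgroup G) ≤ H)
  obtain ⟨r, hr⟩ := exists_pow h3 (le_top : H ≤ ⊤)
  rw [AddSubgroup.card_bot, mul_one] at hh
  have hrh : r + h = k := by
    rw [AddSubgroup.card_top, hG, hh, ← pow_add] at hr
    exact (Nat.pow_right_injective (le_refl 3 |>.trans' (by norm_num)) hr).symm
  obtain ⟨i1, i2, i3⟩ := dist_bound h3 r H ⊤ A1 d1 hgen1 hr
  rw [hmu] at i1 i2 i3
  rw [hh] at i1 i2 i3
  have hn : A0.card + 1 ≤ 3 ^ h := by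
    rw [← hh]
    exact card_insert_zero (fun h => h0 (mem_filter.mp h).1) (fun a ha => (mem_filter.mp ha).2)
  have hkr : k - h = r := by omega
  refine ⟨fun j hj hjm => ?_, fun hk2 => ?_, ?_⟩
  · have hjk : j ≤ k := by
      by_contra hcon
      have h1 := tau_ge (show k < j by omega)
      omega
    refine ⟨hjk, ?_⟩
    rcases Nat.lt_or_ge h j with hlt | hge
    · have key : r + tau (j - h) ≤ A1.card := by
        obtain ⟨t, rfl⟩ := Nat.exists_eq_add_of_lt hlt
        have e0 : h + t + 1 - h = t + 1 := by omega
        rw [e0]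
        have e1 := le_tau (h + t + 1) (by omega)
        rw [Nat.add_sub_cancel] at e1
        rcases Nat.eq_zero_or_pos h with hz | hp
        · rw [hz, pow_zero] at hn
          rw [hz, Nat.zero_add] at hjm
          omega
        · have e2 : 3 ^ (h + t) + 1 ≥ 3 ^ h + 3 ^ t := by
            rw [pow_add]
            have a1 : 1 ≤ 3 ^ h := Nat.one_le_pow _ _ (by norm_num)
            have a2 : 1 ≤ 3 ^ t := Nat.one_le_pow _ _ (by norm_num)
            obtain ⟨u, hu⟩ := Nat.exists_eq_add_of_le a1
            obtain ⟨v, hv⟩ := Nat.exists_eq_add_of_le a2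
            rw [hu, hv]
            nlinarith
          rcases Nat.lt_or_ge (t + 1) 3 with ht | ht
          · have ht' : t = 0 ∨ t = 1 := by omega
            rcases ht' with rfl | rfl
            · rw [Nat.zero_add, tau_one]
              rw [Nat.add_zero] at e1 e2 hjm
              rcases Nat.lt_or_ge h 2 with h5 | h5
              · have h6 : h = 1 := by omega
                rw [h6] at hjm hn
                rw [show 1 + 1 = 2 from rfl, tau_two] at hjm
                omega
              · omega
            · rw [show 1 + 1 = 2 from rfl, tau_two]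
              have a1 : 3 ^ 1 ≤ 3 ^ h := Nat.pow_le_pow_right (by norm_num) hp
              rw [pow_succ] at e1
              omega
          · have e3 := tau_eq ht
            rw [Nat.add_sub_cancel] at e3
            omega
      obtain ⟨h6, h7⟩ := i1 (j - h) (by omega) key
      have e1 : r - (j - h) = k - j := by omega
      have e2 : 3 ^ j = 3 ^ h * 3 ^ (j - h) := by
        rw [← pow_add]
        congr 1
        omega
      rw [e2, mul_assoc, ← e1]
      exact h7
    · refine (pow_le_mix hge (by omega)).trans ?_
      rw [hkr]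
      exact i3
  · rcases Nat.lt_or_ge h 2 with h5 | h5
    · have h6 : h = 0 ∨ h = 1 := by omega
      rcases h6 with rfl | rfl
      · rw [pow_zero] at hn i2
        have h7 := i2 (by omega)
        have e : r = k := by omega
        rw [e, one_mul] at h7
        exact h7
      · rw [pow_one] at hn i1
        obtain ⟨h7, h8⟩ := i1 1 le_rfl (by rw [tau_one]; omega)
        have e : k + 1 = 3 + (r - 1) := by omega
        rw [e, pow_add]
        omega
    · have h7 := pow_le_mix (j := 2) (q := h) (s := k) h5 (by omega)
      rw [hkr] at h7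
      have e : k + 1 = 3 + (k - 2) := by omega
      rw [e, pow_add]
      omega
  · have h7 := pow_le_mix (j := 0) (q := h) (s := k) (by omega) (by omega)
    rw [hkr, pow_zero, one_mul, Nat.sub_zero] at h7
    exact h7.trans i3

omit [Fintype G] in
/-- the order of a group generated by few elements -/
lemma card_closure_le [Finite G] : ∀ A : Finset G, Nat.card (AddSubgroup.closure (A : Set G)) ≤ 3 ^ A.card := by
  classical
  have : Fintype G := Fintype.ofFinite G
  intro A
  induction A using Finset.induction_on with
  | empty =>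
    rw [coe_empty, AddSubgroup.closure_empty, AddSubgroup.card_bot]
    norm_num
  | insert a s ha ih =>
    rw [coe_insert, Set.insert_eq, AddSubgroup.closure_union, card_insert_of_notMem ha, pow_succ]
    rw [sup_comm, ← AddSubgroup.zmultiples_eq_closure]
    by_cases h : a ∈ AddSubgroup.closure (s : Set G)
    · have e : AddSubgroup.closure (s : Set G) ⊔ AddSubgroup.zmultiples a =
          AddSubgroup.closure (s : Set G) :=
        sup_eq_left.mpr (AddSubgroup.zmultiples_le_of_mem h)
      rw [e]
      omega
    · rw [card_sup3 h3 h]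
      omega

end Three

end Pool.Agent.EXT
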