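import Mathlib
import Pool.Agent.EXT.Lower
import Pool.Agent.Helper64.Rho.Upper

/-!
# Generating sets with few subset sums (MP_ec93d3_co)
-/

set_option autoImplicit false

namespace Pool.Agent.EXT

open Finset Pool.Agent.Helper64.Rho

variable {G : Type*} [AddCommGroup G] [Fintype G] [DecidableEq G]

section Three

variable (h3 : ∀ x : G, x + x + x = 0)

include h3

/-- independent elements modulo a subgroup -/
lemma exists_indep (M : AddSubgroup G) : ∀ t : ℕ, 3 ^ t * Nat.card M ≤ Nat.card G →
    ∃ C : Finset G, C.card = t ∧ (∀ c ∈ C, c ∉ M) ∧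
      Nat.card (M ⊔ AddSubgroup.closure (C : Set G) : AddSubgroup G) = 3 ^ t * Nat.card M := by
  intro t
  induction t with
  | zero =>
    intro _
    refine ⟨∅, rfl, fun c hc => absurd hc (notMem_empty c), ?_⟩
    rw [coe_empty, AddSubgroup.closure_empty, sup_bot_eq, pow_zero, one_mul]
  | succ t ih =>
    intro ht
    have hM : 0 < 3 ^ t * Nat.card M := Nat.mul_pos (by positivity) Nat.card_pos
    have e : 3 ^ (t + 1) * Nat.card M = 3 * (3 ^ t * Nat.card M) := by ring
    rw [e] at ht
    obtain ⟨C, hC, hCM, hc⟩ := ih (by omega)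
    set L := M ⊔ AddSubgroup.closure (C : Set G) with hL
    obtain ⟨x, hx⟩ : ∃ x, x ∉ L := by
      by_contra hcon
      have h1 : L = ⊤ := by
        rw [eq_top_iff]
        intro x _
        by_contra h
        exact hcon ⟨x, h⟩
      rw [h1, AddSubgroup.card_top] at hc
      omega
    have hxC : x ∉ C := fun h =>
      hx ((le_sup_right : AddSubgroup.closure (C : Set G) ≤ L)
        (AddSubgroup.subset_closure (mem_coe.mpr h)))
    refine ⟨insert x C, by rw [card_insert_of_notMem hxC, hC], ?_, ?_⟩
    · intro c hc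
      rcases mem_insert.mp hc with rfl | hc
      · exact fun h => hx ((le_sup_left : M ≤ L) h)
      · exact hCM c hc
    · have e2 : M ⊔ AddSubgroup.closure ((insert x C : Finset G) : Set G) =
          L ⊔ AddSubgroup.zmultiples x := by
        rw [coe_insert, Set.insert_eq, AddSubgroup.closure_union,
          ← AddSubgroup.zmultiples_eq_closure, sup_comm (AddSubgroup.zmultiples x), ← sup_assoc]
      rw [e2, card_sup3 h3 hx, hc, e]

/-- putting together a generating subset of a subgroup and independent elements -/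
lemma glue {H : AddSubgroup G} {B C : Finset G} {b : ℕ} (hB : ∀ x ∈ B, x ∈ H)
    (hB0 : (0 : G) ∉ B) (hBg : AddSubgroup.closure (B : Set G) = H)
    (hBs : (FS B id).card ≤ b) (hC : ∀ x ∈ C, x ∉ H)
    (hCg : H ⊔ AddSubgroup.closure (C : Set G) = ⊤) :
    (0 : G) ∉ B ∪ C ∧ (B ∪ C).card = B.card + C.card ∧
      AddSubgroup.closure ((B ∪ C : Finset G) : Set G) = ⊤ ∧
      (FS (B ∪ C) id).card ≤ b * 2 ^ C.card := by
  have hd : Disjoint B C := by
    rw [disjoint_left]
    exact fun x hx hx2 => hC x hx2 (hB x hx)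
  refine ⟨?_, card_union_of_disjoint hd, ?_, ?_⟩
  · intro h
    rcases mem_union.mp h with h | h
    · exact hB0 h
    · exact hC 0 h H.zero_mem
  · rw [coe_union, AddSubgroup.closure_union, hBg, hCg]
  · have h1 : FS (B ∪ C) id ⊆ (FS B id ×ˢ FS C id).image (fun p => p.1 + p.2) := by
      intro x hx
      obtain ⟨a, ha, b, hb, rfl⟩ := (mem_FS_union hd id).mp hx
      exact mem_image.mpr ⟨(a, b), mem_product.mpr ⟨ha, hb⟩, rfl⟩
    calc (FS (B ∪ C) id).card ≤ (FS B id ×ˢ FS C id).card := (card_le_card h1).trans card_image_le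
      _ = (FS B id).card * (FS C id).card := card_product _ _
      _ ≤ b * 2 ^ C.card := Nat.mul_le_mul hBs (card_FS_le C id)

/-- the upper bound in the general case -/
lemma upper_gen {k m j : ℕ} (hG : Nat.card G = 3 ^ k) (hkm : k ≤ m) (hjk : j ≤ k)
    (hj : m + j + 1 ≤ 3 ^ j + k) :
    ∃ A : Finset G, (0 : G) ∉ A ∧ A.card = m ∧ AddSubgroup.closure (A : Set G) = ⊤ ∧
      (FS A id).card ≤ 3 ^ j * 2 ^ (k - j) := by
  classical
  obtain ⟨T, hT, hT0, hTc⟩ := exists_indep h3 (⊥ : AddSubgroup G) j (by
    rw [AddSubgroup.card_bot, mul_one, hG]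
    exact Nat.pow_le_pow_right (by norm_num) hjk)
  rw [AddSubgroup.card_bot, mul_one, bot_sup_eq] at hTc
  set H := AddSubgroup.closure (T : Set G) with hH
  obtain ⟨C, hC, hCH, hCc⟩ := exists_indep h3 H (k - j) (by
    rw [hTc, hG, ← pow_add]
    exact Nat.pow_le_pow_right (by norm_num) (by omega))
  have hCg : H ⊔ AddSubgroup.closure (C : Set G) = ⊤ := by
    apply eq_of_card le_top
    rw [hCc, hTc, AddSubgroup.card_top, hG, ← pow_add]
    exact Nat.pow_le_pow_right (by norm_num) (by omega)
  have hsub : T ⊆ (elts H).erase 0 := by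
    intro x hx
    rw [mem_erase, mem_elts]
    refine ⟨?_, AddSubgroup.subset_closure (mem_coe.mpr hx)⟩
    intro h
    exact hT0 x hx (by rw [h]; exact AddSubgroup.zero_mem _)
  have hcard : ((elts H).erase 0).card = 3 ^ j - 1 := by
    rw [card_erase_of_mem (mem_elts.mpr H.zero_mem), card_elts, hTc]
  obtain ⟨B, hTB, hBH, hBc⟩ := exists_subsuperset_card_eq hsub
    (show T.card ≤ m - (k - j) by omega)
    (show m - (k - j) ≤ ((elts H).erase 0).card by rw [hcard]; omega)
  have hB : ∀ x ∈ B, x ∈ H := fun x hx => mem_elts.mp (mem_of_mem_erase (hBH hx))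
  have hB0 : (0 : G) ∉ B := fun h => notMem_erase 0 _ (hBH h)
  have hBg : AddSubgroup.closure (B : Set G) = H := by
    apply le_antisymm
    · rw [AddSubgroup.closure_le]
      exact fun x hx => hB x (mem_coe.mp hx)
    · exact AddSubgroup.closure_mono (coe_subset.mpr hTB)
  have hBs : (FS B id).card ≤ 3 ^ j := by
    rw [← hTc, ← card_elts]
    refine card_le_card ?_
    intro x hx
    exact mem_elts.mpr (FS_subset_of_mem (f := id) hB hx)
  obtain ⟨g1, g2, g3, g4⟩ := glue h3 hB hB0 hBg hBs hCH hCg
  refine ⟨B ∪ C, g1, ?_, g3, ?_⟩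
  · rw [g2, hBc, hC]
    omega
  · rw [hC] at g4
    exact g4

omit h3 [Fintype G] in
lemma mem_FS_insert {a : G} {s : Finset G} {x : G} (hx : x ∈ FS (insert a s) id) :
    x ∈ FS s id ∨ ∃ y ∈ FS s id, x = a + y := by
  obtain ⟨t, ht, rfl⟩ := mem_FS.mp hx
  by_cases h : a ∈ t
  · right
    refine ⟨∑ i ∈ t.erase a, id i, mem_FS.mpr ⟨t.erase a, ?_, rfl⟩, (add_sum_erase t id h).symm⟩
    intro y hy
    obtain ⟨h1, h2⟩ := mem_erase.mp hy
    exact (mem_insert.mp (ht h2)).resolve_left h1
  · left
    refine mem_FS.mpr ⟨t, ?_, rfl⟩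
    intro y hy
    refine (mem_insert.mp (ht hy)).resolve_left ?_
    rintro rfl
    exact h hy

omit h3 [Fintype G] in
lemma mem_FS_singleton {a x : G} (hx : x ∈ FS ({a} : Finset G) id) : x = 0 ∨ x = a := by
  rcases mem_FS_insert (s := ∅) hx with h | ⟨y, h, rfl⟩
  · rw [FS_empty, mem_singleton] at h
    exact Or.inl h
  · rw [FS_empty, mem_singleton] at h
    right
    rw [h, add_zero]

omit [Fintype G] in
/-- four elements with eight sums -/
lemma four_sums {a b x : G} (hx : x ∈ FS ({a, b, a + b, a - b} : Finset G) id) :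
    x = 0 ∨ x = a ∨ x = b ∨ x = a + b ∨ x = a - b ∨ x = -a + b ∨ x = -a - b ∨ x = -a := by
  have ha := h3 a
  have hb := h3 b
  have hab := h3 (a - b)
  have key : x = 0 ∨ x = a - b ∨ x = a + b ∨ x = a + b + (a - b) ∨
      x = b ∨ x = b + (a - b) ∨ x = b + (a + b) ∨ x = b + (a + b + (a - b)) ∨
      x = a ∨ x = a + (a - b) ∨ x = a + (a + b) ∨ x = a + (a + b + (a - b)) ∨
      x = a + b ∨ x = a + (b + (a - b)) ∨ x = a + (b + (a + b)) ∨
      x = a + (b + (a + b + (a - b))) := by
    rcases mem_FS_insert hx with h1 | ⟨y1, h1, e1⟩ <;>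
    rcases mem_FS_insert h1 with h2 | ⟨y2, h2, e2⟩ <;>
    rcases mem_FS_insert h2 with h4 | ⟨y4, h4, e4⟩ <;>
    rcases mem_FS_singleton h4 with h5 | h5 <;>
    clear hx h1 h2 h4 <;>
    (try subst e1) <;>
    (try subst e2) <;>
    (try subst e4) <;>
    (try subst h5) <;>
    simp
  rcases key with h | h | h | h | h | h | h | h | h | h | h | h | h | h | h | h
  · exact Or.inl h
  · exact Or.inr (Or.inr (Or.inr (Or.inr (Or.inl h))))
  · exact Or.inr (Or.inr (Or.inr (Or.inl h)))
  · -- `2 a = - a`
    refine Or.inr (Or.inr (Or.inr (Or.inr (Or.inr (Or.inr (Or.inr ?_))))))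
    rw [h]
    linear_combination (norm := module) ha
  · exact Or.inr (Or.inr (Or.inl h))
  · refine Or.inr (Or.inl ?_)
    rw [h]
    module
  · -- `a + 2 b = a - b`
    refine Or.inr (Or.inr (Or.inr (Or.inr (Or.inl ?_))))
    rw [h]
    linear_combination (norm := module) hb
  · -- `2 a + b`
    refine Or.inr (Or.inr (Or.inr (Or.inr (Or.inr (Or.inl ?_)))))
    rw [h]
    linear_combination (norm := module) ha
  · exact Or.inr (Or.inl h)
  · -- `2 a - b`
    refine Or.inr (Or.inr (Or.inr (Or.inr (Or.inr (Or.inr (Or.inl ?_))))))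
    rw [h]
    linear_combination (norm := module) ha
  · -- `2 a + b`
    refine Or.inr (Or.inr (Or.inr (Or.inr (Or.inr (Or.inl ?_)))))
    rw [h]
    linear_combination (norm := module) ha
  · -- `3 a = 0`
    refine Or.inl ?_
    rw [h]
    linear_combination (norm := module) ha
  · exact Or.inr (Or.inr (Or.inr (Or.inl h)))
  · -- `2 a`
    refine Or.inr (Or.inr (Or.inr (Or.inr (Or.inr (Or.inr (Or.inr ?_))))))
    rw [h]
    linear_combination (norm := module) ha
  · -- `2 a + 2 b = - a - b`
    refine Or.inr (Or.inr (Or.inr (Or.inr (Or.inr (Or.inr (Or.inl ?_))))))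
    rw [h]
    linear_combination (norm := module) ha + hb
  · -- `3 a + b = b`
    refine Or.inr (Or.inr (Or.inl ?_))
    rw [h]
    linear_combination (norm := module) ha

/-- the upper bound for `m = k + 2` -/
lemma upper_two {k : ℕ} (hG : Nat.card G = 3 ^ k) (hk : k + 2 < 3 ^ k) :
    ∃ A : Finset G, (0 : G) ∉ A ∧ A.card = k + 2 ∧ AddSubgroup.closure (A : Set G) = ⊤ ∧
      (FS A id).card ≤ 2 ^ (k + 1) := by
  classical
  have hk2 : 2 ≤ k := by
    by_contra hcon
    have h : k = 0 ∨ k = 1 := by omega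
    rcases h with rfl | rfl
    · omega
    · omega
  obtain ⟨T, hT, hT0, hTc⟩ := exists_indep h3 (⊥ : AddSubgroup G) 2 (by
    rw [AddSubgroup.card_bot, mul_one, hG]
    exact Nat.pow_le_pow_right (by norm_num) hk2)
  rw [AddSubgroup.card_bot, mul_one, bot_sup_eq] at hTc
  set H := AddSubgroup.closure (T : Set G) with hH
  obtain ⟨a, b, hab, rfl⟩ := card_eq_two.mp hT
  obtain ⟨C, hC, hCH, hCc⟩ := exists_indep h3 H (k - 2) (by
    rw [hTc, hG, ← pow_add]
    exact Nat.pow_le_pow_right (by norm_num) (by omega))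
  have hCg : H ⊔ AddSubgroup.closure (C : Set G) = ⊤ := by
    apply eq_of_card le_top
    rw [hCc, hTc, AddSubgroup.card_top, hG, ← pow_add]
    exact Nat.pow_le_pow_right (by norm_num) (by omega)
  have haH : a ∈ H := AddSubgroup.subset_closure (by simp)
  have hbH : b ∈ H := AddSubgroup.subset_closure (by simp)
  -- `a` and `b` are independent
  have hH2 : H = AddSubgroup.zmultiples a ⊔ AddSubgroup.zmultiples b := by
    rw [hH, coe_insert, coe_singleton, Set.insert_eq, AddSubgroup.closure_union,
      ← AddSubgroup.zmultiples_eq_closure, ← AddSubgroup.zmultiples_eq_closure]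
  have hz : ∀ c : G, Nat.card (AddSubgroup.zmultiples c) ≤ 3 := by
    intro c
    have h := card_closure_le h3 ({c} : Finset G)
    rw [coe_singleton, ← AddSubgroup.zmultiples_eq_closure, card_singleton, pow_one] at h
    exact h
  have hb1 : b ∉ AddSubgroup.zmultiples a := by
    intro h
    have e : H = AddSubgroup.zmultiples a := by
      rw [hH2]
      exact sup_eq_left.mpr (AddSubgroup.zmultiples_le_of_mem h)
    have h1 := hz a
    rw [← e, hTc] at h1
    omega
  have ha1 : a ∉ AddSubgroup.zmultiples b := by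
    intro h
    have e : H = AddSubgroup.zmultiples b := by
      rw [hH2]
      exact sup_eq_right.mpr (AddSubgroup.zmultiples_le_of_mem h)
    have h1 := hz b
    rw [← e, hTc] at h1
    omega
  have haz := AddSubgroup.mem_zmultiples a
  have hbz := AddSubgroup.mem_zmultiples b
  have ha0 : a ≠ 0 := fun h => ha1 (by rw [h]; exact AddSubgroup.zero_mem _)
  have hb0 : b ≠ 0 := fun h => hb1 (by rw [h]; exact AddSubgroup.zero_mem _)
  have hs0 : a + b ≠ 0 := by
    intro h
    apply hb1
    have e : b = -a := by rw [← add_eq_zero_iff_neg_eq.mp h]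
    rw [e]
    exact AddSubgroup.neg_mem _ haz
  have hd0 : a - b ≠ 0 := sub_ne_zero.mpr hab
  have n1 : a + b ≠ a - b := by
    intro h
    apply hb0
    have e : b = -(b + b) := by
      rw [eq_neg_iff_add_eq_zero, ← add_assoc]
      exact h3 b
    have e2 : b + b = (a + b) - (a - b) := by abel
    rw [e, e2, h, sub_self, neg_zero]
  have n2 : b ≠ a + b := by
    intro h
    apply ha0
    have e : a = (a + b) - b := by abel
    rw [e, ← h, sub_self]
  have n3 : b ≠ a - b := by
    intro h
    apply ha1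
    have e : a = b + b := by
      have e1 : a = (a - b) + b := by abel
      rw [e1, ← h]
    rw [e]
    exact AddSubgroup.add_mem _ hbz hbz
  have n4 : a ≠ a + b := by
    intro h
    apply hb0
    have e : b = (a + b) - a := by abel
    rw [e, ← h, sub_self]
  have n5 : a ≠ a - b := by
    intro h
    apply hb0
    have e : b = a - (a - b) := by abel
    rw [e, ← h, sub_self]
  have c1 : (a + b) ∉ ({a - b} : Finset G) := by
    rw [mem_singleton]
    exact n1
  have c2 : b ∉ ({a + b, a - b} : Finset G) := by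
    rw [mem_insert, mem_singleton]
    exact not_or.mpr ⟨n2, n3⟩
  have c3 : a ∉ ({b, a + b, a - b} : Finset G) := by
    rw [mem_insert, mem_insert, mem_singleton]
    exact not_or.mpr ⟨hab, not_or.mpr ⟨n4, n5⟩⟩
  set B : Finset G := {a, b, a + b, a - b} with hBdef
  have hBc : B.card = 4 := by
    rw [hBdef, card_insert_of_notMem c3, card_insert_of_notMem c2, card_insert_of_notMem c1,
      card_singleton]
  have hB : ∀ x ∈ B, x ∈ H := by
    intro x hx
    rw [hBdef, mem_insert, mem_insert, mem_insert, mem_singleton] at hx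
    rcases hx with rfl | rfl | rfl | rfl
    · exact haH
    · exact hbH
    · exact H.add_mem haH hbH
    · exact H.sub_mem haH hbH
  have hB0 : (0 : G) ∉ B := by
    intro hx
    rw [hBdef, mem_insert, mem_insert, mem_insert, mem_singleton] at hx
    rcases hx with h | h | h | h
    · exact ha0 h.symm
    · exact hb0 h.symm
    · exact hs0 h.symm
    · exact hd0 h.symm
  have hBg : AddSubgroup.closure (B : Set G) = H := by
    apply le_antisymm
    · rw [AddSubgroup.closure_le]
      exact fun x hx => hB x (mem_coe.mp hx)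
    · apply AddSubgroup.closure_mono
      rw [coe_subset, hBdef]
      intro x hx
      rcases mem_insert.mp hx with rfl | hx
      · exact mem_insert_self _ _
      · rw [mem_singleton.mp hx]
        exact mem_insert_of_mem (mem_insert_self _ _)
  have hBs : (FS B id).card ≤ 8 := by
    have h1 : FS B id ⊆ ({0, a, b, a + b, a - b, -a + b, -a - b, -a} : Finset G) := by
      intro x hx
      have h2 := four_sums h3 hx
      simp only [mem_insert, mem_singleton]
      exact h2
    exact (card_le_card h1).trans ((card_insert_le _ _).trans (Nat.succ_le_succ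
      ((card_insert_le _ _).trans (Nat.succ_le_succ card_le_six))))
  obtain ⟨g1, g2, g3, g4⟩ := glue h3 hB hB0 hBg hBs hCH hCg
  refine ⟨B ∪ C, g1, ?_, g3, ?_⟩
  · rw [g2, hBc, hC]
    omega
  · rw [hC] at g4
    have e : k + 1 = 3 + (k - 2) := by omega
    rw [e, pow_add]
    exact g4

end Three

end Pool.Agent.EXT
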